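import Pool.Agent.Q5.GS.Group

/-! The continuation of `L_S(s, π, ρ)` for `GSp(2n)` from the base changes of the Euler product to
families of number fields. -/

namespace Pool.Agent.Results.MP_eea520_nt.BaseChangeFamilies

open NumberField Pool.Agent.Q5.GS Pool.Agent.Q5.DP Pool.Agent.Q5.SO
open scoped Classical

theorem result (n m : ℕ) (ρ : Rep n m) (A : ℕ → LGroup n) (S : Finset ℕ) (κ : ℝ)
    (hκ : Bounded (mats ρ A) S κ) :
    -- (0) the Euler product over `ℚ`
    (∀ s : ℂ, LF (mats ρ A) S ℚ s = ∏' p : Nat.Primes, (if (p : ℕ) ∈ S then 1 else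
      (1 - ((p : ℕ) : ℂ) ^ (-s) • mats ρ A p).det)⁻¹) ∧
    -- (1) the subfields `F` of a Galois extension `L` of `ℚ` with `L / F` hyperelementary
    (∀ (L : Type) [Field L] [NumberField L] [IsGalois ℚ L],
      (∀ (F : Type) [Field F] [NumberField F] [Algebra F L], Hyper (L ≃ₐ[F] L) →
        Continues ρ A S F 1) →
      ∀ (F : Type) [Field F] [NumberField F] [Algebra F L], Continues ρ A S F 1) ∧
    -- (2) families closed under composita
    (∀ 𝓕 : Set (Subfield (AlgebraicClosure ℚ)), ExactS 𝓕 →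
      (∀ F ∈ 𝓕, ∀ [NumberField F], Continues ρ A S F 1) → Continues ρ A S ℚ 1) ∧
    -- (3) fields of given degrees
    (∀ D : Set ℕ, (∀ d ∈ D, ∀ n : ℕ, 0 < n → d * n ∈ D) → (∀ g : ℕ, (∀ d ∈ D, g ∣ d) → g = 1) →
      (∀ (F : Type) [Field F] [NumberField F], Module.finrank ℚ F ∈ D → Continues ρ A S F 1) →
      ∀ (F : Type) [Field F] [NumberField F], Continues ρ A S F 1) ∧
    -- (4) fields of degree divisible by `N`
    (∀ N : ℕ, (∀ (F : Type) [Field F] [NumberField F], N ∣ Module.finrank ℚ F →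
        Continues ρ A S F 1) → ∀ (F : Type) [Field F] [NumberField F],
        Continues ρ A S F ((N / N.gcd (Module.finrank ℚ F) : ℕ) : ℤ)) ∧
    -- (5) wide families
    ∀ 𝓕 : Set (Subfield (AlgebraicClosure ℚ)), WideS 𝓕 →
      (∀ F ∈ 𝓕, ∀ [NumberField F], Continues ρ A S F 1) →
      ∃ r : ℕ, 0 < r ∧ Continues ρ A S ℚ r :=
  ⟨fun s => LF_rat (mats ρ A) S s, fun L _ _ _ h F _ _ _ => cont_hyper hκ L h F,
    fun _ h h1 => cont_exact hκ h h1, fun _ hD hD' h F _ _ => cont_sparse hκ hD hD' h F,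
    fun _ h F _ _ => cont_degree hκ h F, fun _ h h1 => cont_wide hκ h h1⟩

end Pool.Agent.Results.MP_eea520_nt.BaseChangeFamilies
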