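import Pool.Agent.Q255.SG.MC4

/-!
# The `L`-functions of an automorphic representation of `GSp(2n)` and their vertical limits on the
edge of absolute convergence

Let `π` be an automorphic representation of `GSp(2n)` over `ℚ` with Satake classes `A_p` in the
`L`-group, and let `ρ_i` be countably many finite dimensional representations of the `L`-group, with
real numbers `w_i` such that the eigenvalues of `ρ_i(A_p)` are at most `p^{w_i}` in absolute value.
Nothing is known in general about the continuation of `L_S(s, π, ρ_i)` to or beyond the edge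
`Re s = w_i + 1`.

We determine all vertical limits of the family of the `L_S(s, π, ρ_i)` on the edge.  They are the
Euler products `L_S(s, π, ρ_i, θ) = ∏ det(1 - e(θ_p) ρ_i(A_p) p^{-s})⁻¹` twisted by arbitrary angles
`θ_p`, the same for all `i`.  Such a twist is determined up to its Euler factors by the modulus of its
boundary function; the vertical translates are equidistributed among the twists.  Among the vertical
limits, almost every one continues analytically and without zeros to `Re s > w_i + 1/2`, for all `i`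
at once, but the generic one (in the sense of Baire) has the edge as its natural boundary, for every
`i` for which the series `∑ |tr ρ_i(A_p)| p^{-w_i-1}` diverges.
-/

set_option autoImplicit false

namespace Pool.Agent.Results.MP_eea520_nt.HullOnTheEdge

open Filter Topology MeasureTheory

/-! ## The L-group and the L-functions -/

section GSpin

variable {R M : Type} [CommRing R] [AddCommGroup M] [Module R M]

/-- The group of the products of an invertible scalar and of an element of the spin group of the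
quadratic form `Q`, in the group of units of the Clifford algebra of `Q`. -/
def scalarTimesSpin (Q : QuadraticForm R M) : Subgroup (CliffordAlgebra Q)ˣ where
  carrier := {u | ∃ c : Rˣ, ∃ x ∈ spinGroup Q, (u : CliffordAlgebra Q) = (c : R) • x}
  mul_mem' := by
    rintro u v ⟨c, x, hx, hu⟩ ⟨d, y, hy, hv⟩
    refine ⟨c * d, x * y, mul_mem hx hy, ?_⟩
    rw [Units.val_mul, hu, hv, smul_mul_smul_comm, Units.val_mul]
  one_mem' := ⟨1, 1, one_mem _, by simp⟩
  inv_mem' := by
    rintro u ⟨c, x, hx, hu⟩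
    refine ⟨c⁻¹, star x, spinGroup.star_mem hx, ?_⟩
    have h1 : (u : CliffordAlgebra Q) * (((c⁻¹ : Rˣ) : R) • star x) = 1 := by
      rw [hu, smul_mul_smul_comm, spinGroup.mul_star_self_of_mem hx, ← Units.val_mul,
        mul_inv_cancel, Units.val_one, one_smul]
    exact Units.inv_eq_of_mul_eq_one_right h1

/-- The group `GSpin(Q)` of the products of an invertible scalar and of an element of the spin group
of `Q`. -/
def GSpin (Q : QuadraticForm R M) : Type := scalarTimesSpin Q

instance (Q : QuadraticForm R M) : Group (GSpin Q) := (scalarTimesSpin Q).toGroup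

end GSpin

/-- The quadratic form `x_0² + ... + x_{2n}²` in `2n + 1` complex variables. -/
noncomputable def form (n : ℕ) : QuadraticForm ℂ (Fin (2 * n + 1) → ℂ) :=
  QuadraticMap.weightedSumSquares ℂ fun _ : Fin (2 * n + 1) => (1 : ℂ)

/-- The `L`-group `GSpin_{2n+1}(ℂ)` of `GSp_{2n}`: the group of the products of a scalar and of an
element of the spin group of the form `x_0² + ... + x_{2n}²`. -/
def LGroup (n : ℕ) : Type := GSpin (form n)

noncomputable instance (n : ℕ) : Group (LGroup n) := instGroupGSpin (form n)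

/-- The representations of the `L`-group of dimension `m` (homomorphisms to `GL_m(ℂ)`). -/
def Rep (n m : ℕ) : Type := LGroup n →* GL (Fin m) ℂ

/-- The matrix of `A` in the representation `ρ`. -/
noncomputable def mat {n m : ℕ} (ρ : Rep n m) (A : LGroup n) : Matrix (Fin m) (Fin m) ℂ :=
  ((DFunLike.coe (F := LGroup n →* GL (Fin m) ℂ) ρ A : GL (Fin m) ℂ) : Matrix (Fin m) (Fin m) ℂ)

/-- The number `e(x) = exp(2πix)` for `x ∈ ℝ/ℤ`. -/
noncomputable def e (x : UnitAddCircle) : ℂ := fourier 1 x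

variable {n m : ℕ}

/-- The inverse `det(1 - z ρ(A))⁻¹`. -/
noncomputable def factor (ρ : Rep n m) (A : LGroup n) (z : ℂ) : ℂ :=
  ((1 - z • mat ρ A).det)⁻¹

/-- The `L`-function `L_S(s, A, ρ, θ) = ∏_{p ∉ S} det(1 - e(θ_p) ρ(A_p) p^{-s})⁻¹` of the classes
`A_p`, the representation `ρ` and the angles `θ`.  For `θ = 0` and the Satake classes of `π` it is
`L_S(s, π, ρ)`. -/
noncomputable def LFunction (S : Finset ℕ) (A : ℕ → LGroup n) (ρ : Rep n m)
    (θ : ℕ → UnitAddCircle) (s : ℂ) : ℂ :=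
  ∏' p : Nat.Primes, if (p : ℕ) ∈ S then 1 else factor ρ (A p) (e (θ p) * ((p : ℕ) : ℂ) ^ (-s))

/-- The partial Euler product over the primes less than `x`. -/
noncomputable def partialProduct (S : Finset ℕ) (A : ℕ → LGroup n) (ρ : Rep n m)
    (θ : ℕ → UnitAddCircle) (x : ℕ) (s : ℂ) : ℂ :=
  ∏ p ∈ Nat.primesBelow x, if p ∈ S then 1 else factor ρ (A p) (e (θ p) * (p : ℂ) ^ (-s))

/-- The eigenvalues of `ρ(A_p)` are at most `p^w` in absolute value for all primes `p ∉ S`. -/
def Bounded (S : Finset ℕ) (A : ℕ → LGroup n) (ρ : Rep n m) (w : ℝ) : Prop :=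
  ∀ p : ℕ, p.Prime → p ∉ S → ∀ z ∈ spectrum ℂ (mat ρ (A p)), ‖z‖ ≤ (p : ℝ) ^ w

/-- The point `w + 1 + it` of the edge of absolute convergence. -/
noncomputable def edgePoint (w t : ℝ) : ℂ := ((w + 1 : ℝ) : ℂ) + (t : ℂ) * Complex.I

/-- The angle `|s - s_t| ≤ K (Re s - (w + 1))` at `s_t = w + 1 + it` in the half-plane
`Re s > w + 1`. -/
def angle (w t K : ℝ) : Set ℂ :=
  {s : ℂ | w + 1 < s.re ∧ ‖s - edgePoint w t‖ ≤ K * (s.re - (w + 1))}

/-- `l` is the boundary function of `L_S(s, A, ρ, θ)` on the edge: outside a set of Hausdorff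
dimension `0` its values are not zero, and they are the limits of the partial Euler products and of
the `L`-function in every angle. -/
def IsBoundaryFunction (S : Finset ℕ) (A : ℕ → LGroup n) (ρ : Rep n m) (w : ℝ)
    (θ : ℕ → UnitAddCircle) (l : ℝ → ℂ) : Prop :=
  ∃ T : Set ℝ, dimH T = 0 ∧ ∀ t : ℝ, t ∉ T → l t ≠ 0 ∧
    Tendsto (fun x : ℕ => partialProduct S A ρ θ x (edgePoint w t)) atTop (𝓝 (l t)) ∧
    ∀ K : ℝ, Tendsto (LFunction S A ρ θ) (𝓝[angle w t K] (edgePoint w t)) (𝓝 (l t))

/-- The distance `sup_a ∫_a^{a+1} min(1, |f - g|)` of two functions on the line. -/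
noncomputable def gap (f g : ℝ → ℂ) : ENNReal :=
  ⨆ a : ℝ, ∫⁻ t in Set.Icc a (a + 1), ENNReal.ofReal (min 1 ‖f t - g t‖)

/-- The product of the uniform probability measures of the circles `ℝ/ℤ`. -/
noncomputable def uniform : Measure (ℕ → UnitAddCircle) :=
  Measure.infinitePi fun _ => (AddCircle.haarAddCircle : Measure UnitAddCircle)

/-- The functions `f_i` are simultaneous limits, in the distance `gap`, of vertical translates of the
functions `l_i`. -/
def IsVerticalLimit {κ : Type} (l f : κ → ℝ → ℂ) : Prop :=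
  ∀ (J : Finset κ) (ε : ℝ), 0 < ε → ∃ τ : ℝ, ∀ i ∈ J,
    gap (fun t => l i (t + τ)) (f i) ≤ ENNReal.ofReal ε

/-- `Φ` is uniformly continuous on the families of measurable functions, for the distances `gap` of
finitely many members. -/
def IsUniformlyContinuous {κ : Type} (Φ : (κ → ℝ → ℂ) → ℝ) : Prop :=
  ∀ ε : ℝ, 0 < ε → ∃ (J : Finset κ) (δ : ℝ), 0 < δ ∧ ∀ f g : κ → ℝ → ℂ,
    (∀ i, AEMeasurable (f i)) → (∀ i, AEMeasurable (g i)) →
    (∀ i ∈ J, gap (f i) (g i) ≤ ENNReal.ofReal δ) → |Φ f - Φ g| ≤ ε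

/-- The Euler products of `ρ` twisted by `θ` and by `θ'` have the same Euler factors. -/
def SameFactors (S : Finset ℕ) (A : ℕ → LGroup n) (ρ : Rep n m) (θ θ' : ℕ → UnitAddCircle) : Prop :=
  ∀ p : ℕ, p.Prime → p ∉ S → ∀ z : ℂ, factor ρ (A p) (e (θ p) * z) = factor ρ (A p) (e (θ' p) * z)

/-- `L_S(s, A, ρ, θ)` has an analytic continuation to `Re s > w + 1/2` without zeros. -/
def ContinuesWithoutZeros (S : Finset ℕ) (A : ℕ → LGroup n) (ρ : Rep n m) (w : ℝ)
    (θ : ℕ → UnitAddCircle) : Prop :=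
  ∃ G : ℂ → ℂ, DifferentiableOn ℂ G {s : ℂ | w + 1 / 2 < s.re} ∧ (∀ s : ℂ, G s ≠ 0) ∧
    ∀ s : ℂ, w + 1 < s.re → LFunction S A ρ θ s = G s

/-- The series `∑_{p ∉ S} |tr ρ(A_p)| p^{-w-1}` diverges. -/
def TracesDiverge (S : Finset ℕ) (A : ℕ → LGroup n) (ρ : Rep n m) (w : ℝ) : Prop :=
  ¬ Summable fun p : ℕ => if p.Prime ∧ p ∉ S then
    ‖(mat ρ (A p)).trace‖ * (p : ℝ) ^ (-(w + 1)) else 0

/-- For every rational `t` the function `L_S(s, A, ρ, θ)` takes arbitrarily large and arbitrarily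
small values on the segments `w + 1 + h + it`, `0 < h < ε`. -/
def Oscillates (S : Finset ℕ) (A : ℕ → LGroup n) (ρ : Rep n m) (w : ℝ)
    (θ : ℕ → UnitAddCircle) : Prop :=
  ∀ (t : ℚ) (ε M : ℝ), 0 < ε → 0 < M →
    (∃ h : ℝ, 0 < h ∧ h < ε ∧ M < ‖LFunction S A ρ θ (edgePoint w t + h)‖) ∧
    ∃ h : ℝ, 0 < h ∧ h < ε ∧ ‖LFunction S A ρ θ (edgePoint w t + h)‖ < M⁻¹

/-- `L_S(s, A, ρ, θ)` has no meromorphic continuation to a neighbourhood of any point of the edge
`Re s = w + 1`. -/
def EdgeIsNaturalBoundary (S : Finset ℕ) (A : ℕ → LGroup n) (ρ : Rep n m) (w : ℝ)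
    (θ : ℕ → UnitAddCircle) : Prop :=
  ∀ t : ℝ, ¬ ∃ F : ℂ → ℂ, MeromorphicAt F (edgePoint w t) ∧
    ∀ᶠ s in 𝓝 (edgePoint w t), w + 1 < s.re → F s = LFunction S A ρ θ s

/-! ## Eigenvalues -/

theorem exists_roots (M : Matrix (Fin m) (Fin m) ℂ) : ∃ α : Fin m → ℂ,
    (∀ j, α j ∈ spectrum ℂ M) ∧ (∀ z : ℂ, (1 - z • M).det = ∏ j, (1 - α j * z)) ∧
    M.trace = ∑ j, α j := by
  have hs : M.charpoly.Splits := IsAlgClosed.splits _
  have hc : M.charpoly.roots.card = m := by
    rw [← hs.natDegree_eq_card_roots, Matrix.charpoly_natDegree_eq_dim, Fintype.card_fin]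
  obtain ⟨l, hl⟩ : ∃ l : List ℂ, (l : Multiset ℂ) = M.charpoly.roots :=
    ⟨M.charpoly.roots.toList, Multiset.coe_toList _⟩
  have hlm : l.length = m := by
    rw [← Multiset.coe_card, hl, hc]
  subst hlm
  refine ⟨fun j => l.get j, fun j => ?_, fun z => ?_, ?_⟩
  · rw [Matrix.mem_spectrum_iff_isRoot_charpoly]
    have h1 : l.get j ∈ M.charpoly.roots := by
      rw [← hl]
      exact List.get_mem l j
    exact (Polynomial.mem_roots'.1 h1).2
  · have hp : M.charpoly = (M.charpoly.roots.map fun a => Polynomial.X - Polynomial.C a).prod :=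
      hs.eq_prod_roots_of_monic (Matrix.charpoly_monic M)
    have h2 : ∀ x : ℂ, M.charpoly.eval x = ∏ j, (x - l.get j) := by
      intro x
      rw [hp, ← hl, Multiset.map_coe, Multiset.prod_coe, Polynomial.eval_list_prod, List.map_map]
      have : (List.map ((Polynomial.eval x) ∘ fun a => Polynomial.X - Polynomial.C a) l) =
          List.map (fun a => x - a) l := by
        refine List.map_congr_left fun a _ => ?_
        simp
      rw [this, ← List.prod_ofFn]
      congr 1
      exact (List.ofFn_getElem_eq_map l (fun a => x - a)).symm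
    rcases eq_or_ne z 0 with hz | hz
    · subst hz
      simp
    · have h3 : (1 - z • M) = z • (Matrix.scalar (Fin l.length) z⁻¹ - M) := by
        have e1 : (Matrix.scalar (Fin l.length) z⁻¹ : Matrix (Fin l.length) (Fin l.length) ℂ) =
            z⁻¹ • 1 := by
          rw [Matrix.scalar_apply, Matrix.smul_one_eq_diagonal]
        rw [e1, smul_sub, smul_smul, mul_inv_cancel₀ hz, one_smul]
      rw [h3, Matrix.det_smul, Fintype.card_fin, ← Matrix.eval_charpoly, h2, ← Fin.prod_const,
        ← Finset.prod_mul_distrib]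
      refine Finset.prod_congr rfl fun j _ => ?_
      field_simp
  · rw [Matrix.trace_eq_sum_roots_charpoly, ← hl, Multiset.sum_coe, ← List.sum_ofFn]
    congr 1
    exact List.ofFn_getElem.symm

/-- the eigenvalues of `ρ(A_p)` for `p ∉ S`, and `0` for `p ∈ S` -/
theorem exists_alpha {S : Finset ℕ} {A : ℕ → LGroup n} {ρ : Rep n m} {w : ℝ}
    (h : Bounded S A ρ w) : ∃ α : ℕ → Fin m → ℂ, Pool.Agent.Q255.SG.Bd (2 * w) α ∧
      (∀ p : ℕ, p.Prime → ∀ z : ℂ, (if p ∈ S then 1 else factor ρ (A p) z) =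
        (∏ j, (1 - α p j * z))⁻¹) ∧
      (∀ p : ℕ, p.Prime → p ∉ S →
        (mat ρ (A p)).trace = ∑ j, α p j) ∧
      ∀ p ∈ S, ∑ j, α p j = 0 := by
  classical
  choose β h1 h2 h3 using fun p : ℕ =>
    exists_roots (mat ρ (A p))
  refine ⟨fun p j => if p ∈ S then 0 else β p j, fun p hp j => ?_, fun p hp z => ?_,
    fun p hp hS => ?_, fun p hS => ?_⟩
  · have e1 : 2 * w / 2 = w := by ring
    rw [e1]
    by_cases hS : p ∈ S
    · simp only [if_pos hS, norm_zero]
      positivity
    · simp only [if_neg hS]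
      exact h p hp hS _ (h1 p j)
  · by_cases hS : p ∈ S
    · simp only [if_pos hS, zero_mul, sub_zero, Finset.prod_const_one, inv_one]
    · simp only [if_neg hS]
      unfold factor
      rw [h2]
  · simp only [if_neg hS]
    exact h3 p
  · simp only [if_pos hS, Finset.sum_const_zero]

theorem eq0_eq (w t : ℝ) : Pool.Agent.Q255.SG.eq0 (2 * w) t = edgePoint w t := by
  unfold Pool.Agent.Q255.SG.eq0 edgePoint
  rw [show 2 * w / 2 = w by ring]

theorem LFunction_eq {S : Finset ℕ} {A : ℕ → LGroup n} {ρ : Rep n m}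
    {α : ℕ → Fin m → ℂ}
    (hα : ∀ p : ℕ, p.Prime → ∀ z : ℂ, (if p ∈ S then 1 else factor ρ (A p) z) =
        (∏ j, (1 - α p j * z))⁻¹) (θ : ℕ → UnitAddCircle) (s : ℂ) :
    LFunction S A ρ θ s = Pool.Agent.Q255.SG.LF α θ s := by
  unfold LFunction Pool.Agent.Q255.SG.LF
  refine tprod_congr fun p => ?_
  rw [hα p p.2]
  congr 1
  refine Finset.prod_congr rfl fun j _ => ?_
  unfold Pool.Agent.Q255.SG.tw e
  ring

theorem partial_eq {S : Finset ℕ} {A : ℕ → LGroup n} {ρ : Rep n m} {w : ℝ}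
    {α : ℕ → Fin m → ℂ} (hα0 : Pool.Agent.Q255.SG.Bd (2 * w) α)
    (hα : ∀ p : ℕ, p.Prime → ∀ z : ℂ, (if p ∈ S then 1 else factor ρ (A p) z) =
        (∏ j, (1 - α p j * z))⁻¹) (θ : ℕ → UnitAddCircle) (x : ℕ) (t : ℝ) :
    partialProduct S A ρ θ x (edgePoint w t) =
      Pool.Agent.Q255.SG.RP (2 * w) α x (θ + Pool.Agent.Q255.SG.li t) := by
  rw [← Pool.Agent.Q255.SG.AP_tw hα0, ← Pool.Agent.Q255.SG.q_partial, eq0_eq]
  unfold partialProduct
  refine Finset.prod_congr rfl fun p hp => ?_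
  rw [hα p (Nat.prime_of_mem_primesBelow hp)]
  congr 1
  refine Finset.prod_congr rfl fun j _ => ?_
  unfold Pool.Agent.Q255.SG.tw e
  ring

theorem null_of_dimH {T : Set ℝ} (hT : dimH T = 0) : volume T = 0 := by
  have h1 : (Measure.hausdorffMeasure (1 : ℝ) : Measure ℝ) T = 0 := by
    have := hausdorffMeasure_of_dimH_lt (X := ℝ) (s := T) (d := 1) (by rw [hT]; norm_num)
    simpa using this
  rw [← MeasureTheory.hausdorffMeasure_real]
  exact h1

theorem hl_of {S : Finset ℕ} {A : ℕ → LGroup n} {ρ : Rep n m} {w : ℝ}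
    {α : ℕ → Fin m → ℂ} (hα0 : Pool.Agent.Q255.SG.Bd (2 * w) α)
    (hα : ∀ p : ℕ, p.Prime → ∀ z : ℂ, (if p ∈ S then 1 else factor ρ (A p) z) =
        (∏ j, (1 - α p j * z))⁻¹) {θ : ℕ → UnitAddCircle} {l : ℝ → ℂ}
    (h : IsBoundaryFunction S A ρ w θ l) : Pool.Agent.Q255.SG.Hl (2 * w) α θ l := by
  obtain ⟨T, hT, h⟩ := h
  refine ⟨T, null_of_dimH hT, fun t ht => ⟨(h t ht).1, (h t ht).2.1.congr fun x => ?_⟩⟩
  exact partial_eq hα0 hα θ x t

theorem exists_boundary {S : Finset ℕ} {A : ℕ → LGroup n} {ρ : Rep n m} {w : ℝ}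
    (h : Bounded S A ρ w) (θ : ℕ → UnitAddCircle) :
    ∃ l : ℝ → ℂ, IsBoundaryFunction S A ρ w θ l := by
  obtain ⟨α, hα0, hα, -, -⟩ := exists_alpha h
  obtain ⟨T, hT, h⟩ := Pool.Agent.Q255.SG.boundary_q (Pool.Agent.Q255.SG.Bd_tw hα0 θ)
  have h' : ∀ t : ℝ, ∃ l : ℂ, t ∉ T → l ≠ 0 ∧
      Tendsto (fun x : ℕ => partialProduct S A ρ θ x (edgePoint w t)) atTop (𝓝 l) ∧
      ∀ K : ℝ, Tendsto (LFunction S A ρ θ) (𝓝[angle w t K] (edgePoint w t)) (𝓝 l) := by
    intro t
    by_cases ht : t ∈ T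
    · exact ⟨0, fun h => absurd ht h⟩
    · obtain ⟨l, h1, h2, h3⟩ := h t ht
      refine ⟨l, fun _ => ⟨h1, h2.congr fun x => ?_, fun K => ?_⟩⟩
      · rw [Pool.Agent.Q255.SG.q_partial (Pool.Agent.Q255.SG.Bd_tw hα0 θ),
          Pool.Agent.Q255.SG.AP_tw hα0]
        exact (partial_eq hα0 hα θ x t).symm
      · have h4 := h3 K
        rw [eq0_eq, show 2 * w / 2 = w by ring] at h4
        refine h4.congr fun s => ?_
        rw [LFunction_eq hα]
        rfl
  choose l hl using h'
  exact ⟨l, T, hT, hl⟩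

/-- **The vertical limits of the `L`-functions of an automorphic representation of `GSp(2n)` on the
edge of absolute convergence.**  Let `A_p ∈ GSpin_{2n+1}(ℂ)`, let `ρ_i` be countably many finite
dimensional representations of the `L`-group, and let the eigenvalues of `ρ_i(A_p)` be at most
`p^{w_i}` in absolute value for `p ∉ S`.

1. For all angles `θ` and all `i` the `L`-function `L_S(s, A, ρ_i, θ)` has a boundary function on the
edge `Re s = w_i + 1`.
2. *(Vertical limits.)*  Let `l_i` be the boundary function of `L_S(s, A, ρ_i)` (all angles `0`).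
Measurable functions `f_i` are the simultaneous limits of vertical translates of the `l_i`, in the
distance `gap`, if and only if there are angles `θ` such that `f_i` is, almost everywhere, the
boundary function of `L_S(s, A, ρ_i, θ)`, for all `i`.
3. *(Uniqueness.)*  The boundary functions of `L_S(s, A, ρ_i, θ)` and `L_S(s, A, ρ_i, θ')` have the
same modulus almost everywhere if and only if the two Euler products have the same Euler factors.
4. *(Equidistribution.)*  Let `Φ` be a real function of the families of measurable functions which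
is uniformly continuous for the distances `gap` of finitely many members.  Its mean value over the
vertical translates of `(l_i)` by `τ ∈ [a, a + T]` converges for `T → ∞`, uniformly in `a`, to its
mean value over the twists by uniformly distributed angles.
5. *(Almost all limits.)*  For almost all angles `θ` all the `L_S(s, A, ρ_i, θ)` have analytic
continuations to `Re s > w_i + 1/2` without zeros.
6. *(Generic limits.)*  For generic angles `θ` (outside a set of the first category) and all `i` such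
that `∑_{p ∉ S} |tr ρ_i(A_p)| p^{-w_i-1}` diverges, `L_S(s, A, ρ_i, θ)` takes arbitrarily large and
arbitrarily small values on every segment `w_i + 1 + h + it`, `0 < h < ε`, over a rational `t`, and
it has no meromorphic continuation to a neighbourhood of any point of the edge. -/
theorem result (n : ℕ) (S : Finset ℕ) (A : ℕ → LGroup n) (κ : Type) [Countable κ] (m : κ → ℕ)
    (ρ : ∀ i, Rep n (m i)) (w : κ → ℝ) (hw : ∀ i, Bounded S A (ρ i) (w i)) :
    (∀ (θ : ℕ → UnitAddCircle) (i : κ), ∃ l : ℝ → ℂ, IsBoundaryFunction S A (ρ i) (w i) θ l) ∧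
    (∀ l : κ → ℝ → ℂ, (∀ i, IsBoundaryFunction S A (ρ i) (w i) 0 (l i)) →
      ∀ f : κ → ℝ → ℂ, (∀ i, AEMeasurable (f i)) →
      (IsVerticalLimit l f ↔ ∃ θ : ℕ → UnitAddCircle, ∀ i, ∃ g : ℝ → ℂ,
        IsBoundaryFunction S A (ρ i) (w i) θ g ∧ f i =ᵐ[volume] g)) ∧
    (∀ (i : κ) (θ θ' : ℕ → UnitAddCircle) (l l' : ℝ → ℂ),
      IsBoundaryFunction S A (ρ i) (w i) θ l → IsBoundaryFunction S A (ρ i) (w i) θ' l' →
      ((∀ᵐ t ∂(volume : Measure ℝ), ‖l t‖ = ‖l' t‖) ↔ SameFactors S A (ρ i) θ θ')) ∧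
    (∀ l : (ℕ → UnitAddCircle) → κ → ℝ → ℂ,
      (∀ θ i, IsBoundaryFunction S A (ρ i) (w i) θ (l θ i)) →
      ∀ Φ : (κ → ℝ → ℂ) → ℝ, IsUniformlyContinuous Φ →
      Continuous (fun θ => Φ (l θ)) ∧ (Continuous fun τ : ℝ => Φ fun i t => l 0 i (t + τ)) ∧
      ∀ ε : ℝ, 0 < ε → ∃ T₀ : ℝ, 0 < T₀ ∧ ∀ a T : ℝ, T₀ ≤ T →
        |T⁻¹ * (∫ τ in a..(a + T), Φ fun i t => l 0 i (t + τ)) - ∫ θ, Φ (l θ) ∂uniform| ≤ ε) ∧
    (∀ᵐ θ ∂uniform, ∀ i, ContinuesWithoutZeros S A (ρ i) (w i) θ) ∧
    (∀ᶠ θ in residual (ℕ → UnitAddCircle), ∀ i, TracesDiverge S A (ρ i) (w i) →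
      Oscillates S A (ρ i) (w i) θ ∧ EdgeIsNaturalBoundary S A (ρ i) (w i) θ) := by
  choose α hα0 hα hα2 hα3 using fun i => exists_alpha (hw i)
  have ew : ∀ i, 2 * w i / 2 = w i := fun i => by ring
  refine ⟨fun θ i => exists_boundary (hw i) θ, ?_, ?_, ?_, ?_, ?_⟩
  · intro l hl f hf
    have hl' : ∀ i, Pool.Agent.Q255.SG.Hl (2 * w i) (α i) 0 (l i) := fun i =>
      hl_of (hα0 i) (hα i) (hl i)
    constructor
    · intro h
      obtain ⟨θ, hθ⟩ := Pool.Agent.Q255.SG.hull_closed hα0 hl' hf h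
      refine ⟨θ, fun i => ?_⟩
      obtain ⟨g, hg⟩ := exists_boundary (hw i) θ
      exact ⟨g, hg, Pool.Agent.Q255.SG.Hl_unique (hθ i) (hl_of (hα0 i) (hα i) hg)⟩
    · rintro ⟨θ, hθ⟩ J ε hε
      choose g hg1 hg2 using hθ
      exact Pool.Agent.Q255.SG.hull_mem hα0 hl' (fun i => Pool.Agent.Q255.SG.Hl_ae
        (hl_of (hα0 i) (hα i) (hg1 i)) (hg2 i).symm) J hε
  · intro i θ θ' l l' hl hl'
    have g1 := hl_of (hα0 i) (hα i) hl
    have g2 := hl_of (hα0 i) (hα i) hl'
    have efac : ∀ (θ : ℕ → UnitAddCircle) (p : ℕ), p.Prime → p ∉ S → ∀ z : ℂ,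
        factor (ρ i) (A p) (e (θ p) * z) =
          ((Pool.Agent.Q255.SG.PP1 (Pool.Agent.Q255.SG.tw (α i) θ p)).eval z)⁻¹ := by
      intro θ p hp hS z
      have h1 := hα i p hp (e (θ p) * z)
      rw [if_neg hS] at h1
      rw [h1, Pool.Agent.Q255.SG.PP1_eval]
      congr 1
      refine Finset.prod_congr rfl fun j _ => ?_
      unfold Pool.Agent.Q255.SG.tw e
      ring
    constructor
    · intro h p hp hS z
      have h1 := Pool.Agent.Q255.SG.uniq_tw (hα0 i) g1 g2 h hp
      rw [efac θ p hp hS, efac θ' p hp hS, h1]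
    · intro h
      have h1 : ∀ p : ℕ, p.Prime → Pool.Agent.Q255.SG.PP1 (Pool.Agent.Q255.SG.tw (α i) θ p) =
          Pool.Agent.Q255.SG.PP1 (Pool.Agent.Q255.SG.tw (α i) θ' p) := by
        intro p hp
        by_cases hS : p ∈ S
        · have h2 : ∀ (θ : ℕ → UnitAddCircle) (z : ℂ),
              (Pool.Agent.Q255.SG.PP1 (Pool.Agent.Q255.SG.tw (α i) θ p)).eval z = 1 := by
            intro θ z
            have h3 := hα i p hp (e (θ p) * z)
            rw [if_pos hS] at h3
            have h4 := inv_eq_one.1 h3.symm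
            rw [Pool.Agent.Q255.SG.PP1_eval]
            refine Eq.trans (Finset.prod_congr rfl fun j _ => ?_) h4
            unfold Pool.Agent.Q255.SG.tw e
            ring
          refine Polynomial.funext fun z => ?_
          rw [h2, h2]
        · refine Polynomial.funext fun z => ?_
          have h2 := h p hp hS z
          rw [efac θ p hp hS, efac θ' p hp hS] at h2
          exact inv_injective h2
      have h2 := Pool.Agent.Q255.SG.Hl_unique (Pool.Agent.Q255.SG.Hl_of_PP1 (hα0 i) h1 g1) g2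
      filter_upwards [h2] with t ht
      rw [ht]
  · intro l hl Φ hΦ
    have hl' : ∀ θ i, Pool.Agent.Q255.SG.Hl (2 * w i) (α i) θ (l θ i) := fun θ i =>
      hl_of (hα0 i) (hα i) (hl θ i)
    have h1 := fun (ε : ℝ) (hε : 0 < ε) => Pool.Agent.Q255.SG.hull_equi hα0 hl' hΦ hε
    exact ⟨(h1 1 one_pos).1, (h1 1 one_pos).2.1, fun ε hε => (h1 ε hε).2.2⟩
  · rw [ae_all_iff]
    intro i
    have h1 := Pool.Agent.Q255.SG.mc_ae (hα0 i)
    filter_upwards [h1] with θ hθ
    obtain ⟨G, g1, g2, g3⟩ := hθ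
    have e1 : (2 * w i + 1) / 2 = w i + 1 / 2 := by ring
    rw [e1] at g1
    refine ⟨G, g1, g2, fun s hs => ?_⟩
    rw [LFunction_eq (hα i)]
    exact g3 s (by rw [ew]; exact hs)
  · rw [eventually_countable_forall]
    intro i
    by_cases hdiv : TracesDiverge S A (ρ i) (w i)
    · have hb : ¬ Summable (Pool.Agent.Q255.SG.bb (2 * w i) (α i)) := by
        have : Pool.Agent.Q255.SG.bb (2 * w i) (α i) = fun p : ℕ => if p.Prime ∧ p ∉ S then
          ‖(mat (ρ i) (A p)).trace‖ *
          (p : ℝ) ^ (-(w i + 1)) else 0 := by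
          funext p
          unfold Pool.Agent.Q255.SG.bb
          rw [ew]
          by_cases hp : p.Prime
          · by_cases hS : p ∈ S
            · rw [if_pos hp, if_neg (fun h => h.2 hS), hα3 i p hS, norm_zero, zero_mul]
            · rw [if_pos hp, if_pos ⟨hp, hS⟩, hα2 i p hp hS]
          · rw [if_neg hp, if_neg fun h => hp h.1]
        rw [this]
        exact hdiv
      filter_upwards [Pool.Agent.Q255.SG.mc_gen (hα0 i) hb] with θ hθ _
      have esh : ∀ h t : ℝ, Pool.Agent.Q255.SG.sh (2 * w i) h t = edgePoint (w i) t + h := by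
        intro h t
        unfold Pool.Agent.Q255.SG.sh edgePoint
        rw [ew]
        push_cast
        ring
      refine ⟨fun t ε M hε hM => ?_, fun t => ?_⟩
      · obtain ⟨K, hK1, hK2⟩ : ∃ K : ℕ, 1 / ((K : ℝ) + 1) < ε ∧
            Real.log M + Pool.Agent.Q255.SG.CR (m i) < K := by
          have t1 := (tendsto_one_div_add_atTop_nhds_zero_nat (𝕜 := ℝ)).eventually_lt_const hε
          have t2 : ∀ᶠ K : ℕ in atTop, Real.log M + Pool.Agent.Q255.SG.CR (m i) < (K : ℝ) :=
            tendsto_natCast_atTop_atTop.eventually_gt_atTop _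
          exact (t1.and t2).exists
        obtain ⟨⟨h, a1, a2, a3⟩, ⟨h', b1, b2, b3⟩⟩ := hθ t K
        have hre : ∀ h : ℝ, 0 < h →
            2 * w i / 2 + 1 < (Pool.Agent.Q255.SG.sh (2 * w i) h t).re := by
          intro h hh
          rw [Pool.Agent.Q255.SG.sh_re]
          linarith
        constructor
        · refine ⟨h, a1, a2.trans hK1, ?_⟩
          obtain ⟨g1, g2⟩ := Pool.Agent.Q255.SG.log_LF (hα0 i) θ (hre h a1)
          rw [LFunction_eq (hα i), ← esh, ← Real.log_lt_log_iff hM (norm_pos_iff.2 g1)]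
          have := (abs_le.1 g2).1
          linarith
        · refine ⟨h', b1, b2.trans hK1, ?_⟩
          obtain ⟨g1, g2⟩ := Pool.Agent.Q255.SG.log_LF (hα0 i) θ (hre h' b1)
          rw [LFunction_eq (hα i), ← esh,
            ← Real.log_lt_log_iff (norm_pos_iff.2 g1) (inv_pos.2 hM), Real.log_inv]
          have := (abs_le.1 g2).2
          linarith
      · have h1 := Pool.Agent.Q255.SG.mc_nat (hα0 i) (fun t M => (hθ t M).1) t
        rw [esh] at h1
        simp only [Complex.ofReal_zero, add_zero, ew] at h1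
        rintro ⟨F, hF1, hF2⟩
        refine h1 ⟨F, hF1, ?_⟩
        filter_upwards [hF2] with s hs hre
        rw [← LFunction_eq (hα i)]
        exact hs hre
    · exact Eventually.of_forall fun θ h => absurd h hdiv

end Pool.Agent.Results.MP_eea520_nt.HullOnTheEdge
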