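import Pool.Agent.Q255.SG.Bessel2

/-!
# Zeros and poles on the edge of absolute convergence of the `L`-functions of `GSp(2n)`

Let `π` be an automorphic representation of `GSp(2n)` over `ℚ` with Satake classes `A_p` in the
`L`-group, let `ρ_i` be finitely many representations of the `L`-group, and let `w_i` be real numbers
such that the eigenvalues of `ρ_i(A_p)` are at most `p^{w_i}` in absolute value.  Nothing is known in
general about the continuation of `L_S(s, π, ρ_i)` to or beyond the edge `Re s = w_i + 1`, but the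
functions have boundary functions `l_i` on it.

We show that the meromorphic continuation of the products `∏ L_S(w_i + 1 + z, π, ρ_i)^{x_i}` to a
neighbourhood of a point `it₀` of the edge `Re z = 0`, and the order of the zero or pole at this point,
can be read off from the moduli `|l_i(t)|` for `t` near `t₀`.  The order makes sense for real exponents
`x_i`; it is a linear function of `x` on a linear space of exponents.  The orders at different points
satisfy Bessel's inequality: the sum of their squares is at most `(∑ |x_i| dim ρ_i)²`.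
-/

set_option autoImplicit false

namespace Pool.Agent.Results.MP_eea520_nt.OrdersOnTheEdge

open Filter Topology MeasureTheory

/-! ## The L-group and the L-functions -/

section GSpin

variable {R M : Type} [CommRing R] [AddCommGroup M] [Module R M]

/-- The group of the products of an invertible scalar and of an element of the spin group of the
quadratic form `Q`, in the group of units of the Clifford algebra of `Q`. -/
def scalarTimesSpin (Q : QuadraticForm R M) : Subgroup (CliffordAlgebra Q)ˣ where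
  carrier := {u | ∃ c : Rˣ, ∃ x ∈ spinGroup Q, (u : CliffordAlgebra Q) = (c : R) • x}
  mul_mem' := by
    rintro u v ⟨c, x, hx, hu⟩ ⟨d, y, hy, hv⟩
    refine ⟨c * d, x * y, mul_mem hx hy, ?_⟩
    rw [Units.val_mul, hu, hv, smul_mul_smul_comm, Units.val_mul]
  one_mem' := ⟨1, 1, one_mem _, by simp⟩
  inv_mem' := by
    rintro u ⟨c, x, hx, hu⟩
    refine ⟨c⁻¹, star x, spinGroup.star_mem hx, ?_⟩
    have h1 : (u : CliffordAlgebra Q) * (((c⁻¹ : Rˣ) : R) • star x) = 1 := by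
      rw [hu, smul_mul_smul_comm, spinGroup.mul_star_self_of_mem hx, ← Units.val_mul,
        mul_inv_cancel, Units.val_one, one_smul]
    exact Units.inv_eq_of_mul_eq_one_right h1

/-- The group `GSpin(Q)` of the products of an invertible scalar and of an element of the spin group
of `Q`. -/
def GSpin (Q : QuadraticForm R M) : Type := scalarTimesSpin Q

instance (Q : QuadraticForm R M) : Group (GSpin Q) := (scalarTimesSpin Q).toGroup

end GSpin

/-- The quadratic form `x_0² + ... + x_{2n}²` in `2n + 1` complex variables. -/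
noncomputable def form (n : ℕ) : QuadraticForm ℂ (Fin (2 * n + 1) → ℂ) :=
  QuadraticMap.weightedSumSquares ℂ fun _ : Fin (2 * n + 1) => (1 : ℂ)

/-- The `L`-group `GSpin_{2n+1}(ℂ)` of `GSp_{2n}`: the group of the products of a scalar and of an
element of the spin group of the form `x_0² + ... + x_{2n}²`. -/
def LGroup (n : ℕ) : Type := GSpin (form n)

noncomputable instance (n : ℕ) : Group (LGroup n) := instGroupGSpin (form n)

/-- The representations of the `L`-group of dimension `m` (homomorphisms to `GL_m(ℂ)`). -/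
def Rep (n m : ℕ) : Type := LGroup n →* GL (Fin m) ℂ

/-- The matrix of `A` in the representation `ρ`. -/
noncomputable def mat {n m : ℕ} (ρ : Rep n m) (A : LGroup n) : Matrix (Fin m) (Fin m) ℂ :=
  ((DFunLike.coe (F := LGroup n →* GL (Fin m) ℂ) ρ A : GL (Fin m) ℂ) : Matrix (Fin m) (Fin m) ℂ)

variable {n m : ℕ}

/-- The inverse `det(1 - z ρ(A))⁻¹`. -/
noncomputable def factor (ρ : Rep n m) (A : LGroup n) (z : ℂ) : ℂ :=
  ((1 - z • mat ρ A).det)⁻¹

/-- The `L`-function `L_S(s, A, ρ) = ∏_{p ∉ S} det(1 - ρ(A_p) p^{-s})⁻¹`.  For the Satake classes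
`A_p` of `π` it is `L_S(s, π, ρ)`. -/
noncomputable def LFunction (S : Finset ℕ) (A : ℕ → LGroup n) (ρ : Rep n m) (s : ℂ) : ℂ :=
  ∏' p : Nat.Primes, if (p : ℕ) ∈ S then 1 else factor ρ (A p) (((p : ℕ) : ℂ) ^ (-s))

/-- The partial Euler product over the primes less than `x`. -/
noncomputable def partialProduct (S : Finset ℕ) (A : ℕ → LGroup n) (ρ : Rep n m) (x : ℕ)
    (s : ℂ) : ℂ :=
  ∏ p ∈ Nat.primesBelow x, if p ∈ S then 1 else factor ρ (A p) ((p : ℂ) ^ (-s))

/-- The eigenvalues of `ρ(A_p)` are at most `p^w` in absolute value for all primes `p ∉ S`. -/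
def Bounded (S : Finset ℕ) (A : ℕ → LGroup n) (ρ : Rep n m) (w : ℝ) : Prop :=
  ∀ p : ℕ, p.Prime → p ∉ S → ∀ z ∈ spectrum ℂ (mat ρ (A p)), ‖z‖ ≤ (p : ℝ) ^ w

/-- The point `w + 1 + it` of the edge of absolute convergence. -/
noncomputable def edgePoint (w t : ℝ) : ℂ := ((w + 1 : ℝ) : ℂ) + (t : ℂ) * Complex.I

/-- The angle `|s - s_t| ≤ K (Re s - (w + 1))` at `s_t = w + 1 + it` in the half-plane
`Re s > w + 1`. -/
def angle (w t K : ℝ) : Set ℂ :=
  {s : ℂ | w + 1 < s.re ∧ ‖s - edgePoint w t‖ ≤ K * (s.re - (w + 1))}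

/-- `l` is the boundary function of `L_S(s, A, ρ)` on the edge: outside a set of Hausdorff dimension
`0` its values are not zero, and they are the limits of the partial Euler products and of the
`L`-function in every angle. -/
def IsBoundaryFunction (S : Finset ℕ) (A : ℕ → LGroup n) (ρ : Rep n m) (w : ℝ) (l : ℝ → ℂ) :
    Prop :=
  ∃ T : Set ℝ, dimH T = 0 ∧ ∀ t : ℝ, t ∉ T → l t ≠ 0 ∧
    Tendsto (fun x : ℕ => partialProduct S A ρ x (edgePoint w t)) atTop (𝓝 (l t)) ∧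
    ∀ K : ℝ, Tendsto (LFunction S A ρ) (𝓝[angle w t K] (edgePoint w t)) (𝓝 (l t))

/-- The product of the powers with exponents `x_i` of the moduli of the functions `l_i` has the order
`r` at `t₀`: almost everywhere near `t₀` it is `|t - t₀|^r` times the exponential of a real analytic
function. -/
def HasOrder {κ : Type} [Fintype κ] (l : κ → ℝ → ℂ) (x : κ → ℝ) (t₀ r : ℝ) : Prop :=
  ∃ ψ : ℝ → ℝ, AnalyticAt ℝ ψ t₀ ∧ ∃ δ : ℝ, 0 < δ ∧ ∀ᵐ t : ℝ, |t - t₀| < δ →
    ∏ i, ‖l i t‖ ^ x i = |t - t₀| ^ r * Real.exp (ψ t)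

/-- The function `F` is a meromorphic continuation of `L` from the half-plane `Re z > Re z₀` to a
neighbourhood of `z₀`. -/
def IsContinuation (L : ℂ → ℂ) (z₀ : ℂ) (F : ℂ → ℂ) : Prop :=
  MeromorphicAt F z₀ ∧ ∀ᶠ z in 𝓝 z₀, z₀.re < z.re → L z = F z

/-- The product `∏_i L_S(w_i + 1 + z, A, ρ_i)^{x_i}` with integral exponents. -/
noncomputable def product {κ : Type} [Fintype κ] {m : κ → ℕ} (S : Finset ℕ) (A : ℕ → LGroup n)
    (ρ : ∀ i, Rep n (m i)) (w : κ → ℝ) (x : κ → ℤ) (z : ℂ) : ℂ :=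
  ∏ i, LFunction S A (ρ i) (edgePoint (w i) 0 + z) ^ x i

/-- The sum `∑_{p ∉ S} |∑_i x_i tr ρ_i(A_p) p^{-w_i}|² p^{-1-h}`. -/
noncomputable def squareSum {κ : Type} [Fintype κ] {m : κ → ℕ} (S : Finset ℕ) (A : ℕ → LGroup n)
    (ρ : ∀ i, Rep n (m i)) (w x : κ → ℝ) (h : ℝ) : ℝ :=
  ∑' p : ℕ, if p.Prime ∧ p ∉ S then
    ‖∑ i, ((x i * (p : ℝ) ^ (-w i) : ℝ) : ℂ) * (mat (ρ i) (A p)).trace‖ ^ 2 *
      (p : ℝ) ^ (-(1 + h)) else 0

/-! ## Eigenvalues -/

theorem exists_roots (M : Matrix (Fin m) (Fin m) ℂ) : ∃ α : Fin m → ℂ,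
    (∀ j, α j ∈ spectrum ℂ M) ∧ (∀ z : ℂ, (1 - z • M).det = ∏ j, (1 - α j * z)) ∧
    M.trace = ∑ j, α j := by
  have hs : M.charpoly.Splits := IsAlgClosed.splits _
  have hc : M.charpoly.roots.card = m := by
    rw [← hs.natDegree_eq_card_roots, Matrix.charpoly_natDegree_eq_dim, Fintype.card_fin]
  obtain ⟨l, hl⟩ : ∃ l : List ℂ, (l : Multiset ℂ) = M.charpoly.roots :=
    ⟨M.charpoly.roots.toList, Multiset.coe_toList _⟩
  have hlm : l.length = m := by
    rw [← Multiset.coe_card, hl, hc]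
  subst hlm
  refine ⟨fun j => l.get j, fun j => ?_, fun z => ?_, ?_⟩
  · rw [Matrix.mem_spectrum_iff_isRoot_charpoly]
    have h1 : l.get j ∈ M.charpoly.roots := by
      rw [← hl]
      exact List.get_mem l j
    exact (Polynomial.mem_roots'.1 h1).2
  · have hp : M.charpoly = (M.charpoly.roots.map fun a => Polynomial.X - Polynomial.C a).prod :=
      hs.eq_prod_roots_of_monic (Matrix.charpoly_monic M)
    have h2 : ∀ x : ℂ, M.charpoly.eval x = ∏ j, (x - l.get j) := by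
      intro x
      rw [hp, ← hl, Multiset.map_coe, Multiset.prod_coe, Polynomial.eval_list_prod, List.map_map]
      have : (List.map ((Polynomial.eval x) ∘ fun a => Polynomial.X - Polynomial.C a) l) =
          List.map (fun a => x - a) l := by
        refine List.map_congr_left fun a _ => ?_
        simp
      rw [this, ← List.prod_ofFn]
      congr 1
      exact (List.ofFn_getElem_eq_map l (fun a => x - a)).symm
    rcases eq_or_ne z 0 with hz | hz
    · subst hz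
      simp
    · have h3 : (1 - z • M) = z • (Matrix.scalar (Fin l.length) z⁻¹ - M) := by
        have e1 : (Matrix.scalar (Fin l.length) z⁻¹ : Matrix (Fin l.length) (Fin l.length) ℂ) =
            z⁻¹ • 1 := by
          rw [Matrix.scalar_apply, Matrix.smul_one_eq_diagonal]
        rw [e1, smul_sub, smul_smul, mul_inv_cancel₀ hz, one_smul]
      rw [h3, Matrix.det_smul, Fintype.card_fin, ← Matrix.eval_charpoly, h2, ← Fin.prod_const,
        ← Finset.prod_mul_distrib]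
      refine Finset.prod_congr rfl fun j _ => ?_
      field_simp
  · rw [Matrix.trace_eq_sum_roots_charpoly, ← hl, Multiset.sum_coe, ← List.sum_ofFn]
    congr 1
    exact List.ofFn_getElem.symm

/-- the eigenvalues of `ρ(A_p)` for `p ∉ S`, and `0` for `p ∈ S` -/
theorem exists_alpha {S : Finset ℕ} {A : ℕ → LGroup n} {ρ : Rep n m} {w : ℝ}
    (h : Bounded S A ρ w) : ∃ α : ℕ → Fin m → ℂ, Pool.Agent.Q255.SG.Bd (2 * w) α ∧
      (∀ p : ℕ, p.Prime → ∀ z : ℂ, (if p ∈ S then 1 else factor ρ (A p) z) =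
        (∏ j, (1 - α p j * z))⁻¹) ∧
      (∀ p : ℕ, p.Prime → p ∉ S →
        (mat ρ (A p)).trace = ∑ j, α p j) ∧
      ∀ p ∈ S, ∑ j, α p j = 0 := by
  classical
  choose β h1 h2 h3 using fun p : ℕ =>
    exists_roots (mat ρ (A p))
  refine ⟨fun p j => if p ∈ S then 0 else β p j, fun p hp j => ?_, fun p hp z => ?_,
    fun p hp hS => ?_, fun p hS => ?_⟩
  · have e1 : 2 * w / 2 = w := by ring
    rw [e1]
    by_cases hS : p ∈ S
    · simp only [if_pos hS, norm_zero]
      positivity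
    · simp only [if_neg hS]
      exact h p hp hS _ (h1 p j)
  · by_cases hS : p ∈ S
    · simp only [if_pos hS, zero_mul, sub_zero, Finset.prod_const_one, inv_one]
    · simp only [if_neg hS]
      unfold factor
      rw [h2]
  · simp only [if_neg hS]
    exact h3 p
  · simp only [if_pos hS, Finset.sum_const_zero]

theorem eq0_eq (w t : ℝ) : Pool.Agent.Q255.SG.eq0 (2 * w) t = edgePoint w t := by
  unfold Pool.Agent.Q255.SG.eq0 edgePoint
  rw [show 2 * w / 2 = w by ring]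

theorem LFunction_eq {S : Finset ℕ} {A : ℕ → LGroup n} {ρ : Rep n m}
    {α : ℕ → Fin m → ℂ}
    (hα : ∀ p : ℕ, p.Prime → ∀ z : ℂ, (if p ∈ S then 1 else factor ρ (A p) z) =
        (∏ j, (1 - α p j * z))⁻¹) (s : ℂ) :
    LFunction S A ρ s = Pool.Agent.Q255.SG.LF α 0 s := by
  unfold LFunction Pool.Agent.Q255.SG.LF
  refine tprod_congr fun p => ?_
  rw [hα p p.2]
  simp only [Pool.Agent.Q255.SG.tw_zero]

theorem partial_eq {S : Finset ℕ} {A : ℕ → LGroup n} {ρ : Rep n m} {w : ℝ}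
    {α : ℕ → Fin m → ℂ} (hα0 : Pool.Agent.Q255.SG.Bd (2 * w) α)
    (hα : ∀ p : ℕ, p.Prime → ∀ z : ℂ, (if p ∈ S then 1 else factor ρ (A p) z) =
        (∏ j, (1 - α p j * z))⁻¹) (x : ℕ) (t : ℝ) :
    partialProduct S A ρ x (edgePoint w t) =
      Pool.Agent.Q255.SG.RP (2 * w) α x (0 + Pool.Agent.Q255.SG.li t) := by
  rw [zero_add, Pool.Agent.Q255.SG.RP_li hα0, ← Pool.Agent.Q255.SG.q_partial, eq0_eq]
  unfold partialProduct
  exact Finset.prod_congr rfl fun p hp => hα p (Nat.prime_of_mem_primesBelow hp) _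

theorem null_of_dimH {T : Set ℝ} (hT : dimH T = 0) : volume T = 0 := by
  have h1 : (Measure.hausdorffMeasure (1 : ℝ) : Measure ℝ) T = 0 := by
    have := hausdorffMeasure_of_dimH_lt (X := ℝ) (s := T) (d := 1) (by rw [hT]; norm_num)
    simpa using this
  rw [← MeasureTheory.hausdorffMeasure_real]
  exact h1

theorem exists_boundary {S : Finset ℕ} {A : ℕ → LGroup n} {ρ : Rep n m} {w : ℝ}
    (h : Bounded S A ρ w) : ∃ l : ℝ → ℂ, IsBoundaryFunction S A ρ w l := by
  obtain ⟨α, hα0, hα, -, -⟩ := exists_alpha h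
  obtain ⟨T, hT, h⟩ := Pool.Agent.Q255.SG.boundary_q hα0
  have h' : ∀ t : ℝ, ∃ l : ℂ, t ∉ T → l ≠ 0 ∧
      Tendsto (fun x : ℕ => partialProduct S A ρ x (edgePoint w t)) atTop (𝓝 l) ∧
      ∀ K : ℝ, Tendsto (LFunction S A ρ) (𝓝[angle w t K] (edgePoint w t)) (𝓝 l) := by
    intro t
    by_cases ht : t ∈ T
    · exact ⟨0, fun h => absurd ht h⟩
    · obtain ⟨l, h1, h2, h3⟩ := h t ht
      refine ⟨l, fun _ => ⟨h1, h2.congr fun x => ?_, fun K => ?_⟩⟩
      · rw [partial_eq hα0 hα, zero_add, Pool.Agent.Q255.SG.RP_li hα0,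
          ← Pool.Agent.Q255.SG.q_partial]
      · have h4 := h3 K
        rw [eq0_eq, show 2 * w / 2 = w by ring] at h4
        refine h4.congr fun s => ?_
        rw [LFunction_eq hα]
        unfold Pool.Agent.Q255.SG.LF
        simp only [Pool.Agent.Q255.SG.tw_zero]
  choose l hl using h'
  exact ⟨l, T, hT, hl⟩

theorem hl_of {S : Finset ℕ} {A : ℕ → LGroup n} {ρ : Rep n m} {w : ℝ}
    {α : ℕ → Fin m → ℂ} (hα0 : Pool.Agent.Q255.SG.Bd (2 * w) α)
    (hα : ∀ p : ℕ, p.Prime → ∀ z : ℂ, (if p ∈ S then 1 else factor ρ (A p) z) =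
        (∏ j, (1 - α p j * z))⁻¹) {l : ℝ → ℂ}
    (h : IsBoundaryFunction S A ρ w l) : Pool.Agent.Q255.SG.Hl (2 * w) α 0 l := by
  obtain ⟨T, hT, h⟩ := h
  refine ⟨T, null_of_dimH hT, fun t ht => ⟨(h t ht).1, (h t ht).2.1.congr fun x => ?_⟩⟩
  exact partial_eq hα0 hα x t

theorem Lz_eq {κ : Type} {m : κ → ℕ} {S : Finset ℕ} {A : ℕ → LGroup n} {ρ : ∀ i, Rep n (m i)}
    {w : κ → ℝ} {α : ∀ i, ℕ → Fin (m i) → ℂ}
    (hα : ∀ i, ∀ p : ℕ, p.Prime → ∀ z : ℂ, (if p ∈ S then 1 else factor (ρ i) (A p) z) =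
        (∏ j, (1 - α i p j * z))⁻¹) (i : κ) (z : ℂ) :
    Pool.Agent.Q255.SG.Lz (fun i => 2 * w i) α i z =
      LFunction S A (ρ i) (edgePoint (w i) 0 + z) := by
  rw [LFunction_eq (hα i)]
  unfold Pool.Agent.Q255.SG.Lz edgePoint
  rw [show 2 * w i / 2 = w i by ring]
  simp

theorem hor_of {κ : Type} {m : κ → ℕ} {S : Finset ℕ} {A : ℕ → LGroup n} {ρ : ∀ i, Rep n (m i)}
    {w : κ → ℝ} {α : ∀ i, ℕ → Fin (m i) → ℂ}
    (hα : ∀ i, ∀ p : ℕ, p.Prime → ∀ z : ℂ, (if p ∈ S then 1 else factor (ρ i) (A p) z) =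
        (∏ j, (1 - α i p j * z))⁻¹) {l : κ → ℝ → ℂ}
    (h : ∀ i, IsBoundaryFunction S A (ρ i) (w i) (l i)) :
    Pool.Agent.Q255.SG.HorLz (Pool.Agent.Q255.SG.Lz (fun i => 2 * w i) α) l := by
  intro i
  obtain ⟨T, hT, h⟩ := h i
  refine ⟨T, null_of_dimH hT, fun t ht => ⟨(h t ht).1, ?_⟩⟩
  have h1 := (h t ht).2.2 1
  have h2 : Tendsto (fun ε : ℝ => edgePoint (w i) t + ε) (𝓝[>] 0)
      (𝓝[angle (w i) t 1] (edgePoint (w i) t)) := by
    refine tendsto_nhdsWithin_iff.2 ⟨?_, ?_⟩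
    · have : Continuous fun ε : ℝ => edgePoint (w i) t + (ε : ℂ) := by fun_prop
      have h3 := (this.tendsto 0).mono_left (nhdsWithin_le_nhds (s := Set.Ioi 0))
      simpa using h3
    · filter_upwards [self_mem_nhdsWithin] with ε hε
      have hε0 : (0 : ℝ) < ε := hε
      have e1 : (edgePoint (w i) t + (ε : ℂ)).re = w i + 1 + ε := by
        unfold edgePoint
        simp
      refine ⟨by rw [e1]; linarith, ?_⟩
      rw [e1, add_sub_cancel_left, Complex.norm_real, Real.norm_of_nonneg hε0.le]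
      linarith
  refine (h1.comp h2).congr fun ε => ?_
  rw [Lz_eq hα]
  simp only [Function.comp_apply]
  congr 1
  unfold edgePoint
  push_cast
  ring

theorem hasOrder_iff {κ : Type} [Fintype κ] {l : κ → ℝ → ℂ}
    (hl : ∀ i, ∃ T : Set ℝ, volume T = 0 ∧ ∀ t ∉ T, l i t ≠ 0) {x : κ → ℝ} {t₀ r : ℝ} :
    HasOrder l x t₀ r ↔ Pool.Agent.Q255.SG.Reg l x t₀ r := by
  choose T hT hne using hl
  have hall : ∀ᵐ t : ℝ, ∀ i, t ∉ T i := ae_all_iff.2 fun i => Pool.Agent.Q255.SG.ae_not (hT i)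
  have hne0 : ∀ᵐ t : ℝ, t ≠ t₀ := by
    have : volume ({t₀} : Set ℝ) = 0 := measure_singleton t₀
    filter_upwards [Pool.Agent.Q255.SG.ae_not this] with t ht using ht
  have key : ∀ t : ℝ, (∀ i, t ∉ T i) → t ≠ t₀ → ∀ y : ℝ,
      (∏ i, ‖l i t‖ ^ x i = |t - t₀| ^ r * Real.exp y ↔
        ∑ i, x i * Real.log ‖l i t‖ = r * Real.log |t - t₀| + y) := by
    intro t h1 h2 y
    have h0 : 0 < |t - t₀| := abs_pos.2 (sub_ne_zero.2 h2)
    have e1 : ∏ i, ‖l i t‖ ^ x i = Real.exp (∑ i, x i * Real.log ‖l i t‖) := by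
      rw [Real.exp_sum]
      refine Finset.prod_congr rfl fun i _ => ?_
      rw [Real.rpow_def_of_pos (norm_pos_iff.2 (hne i t (h1 i))), mul_comm]
    have e2 : |t - t₀| ^ r * Real.exp y = Real.exp (r * Real.log |t - t₀| + y) := by
      rw [Real.exp_add, Real.rpow_def_of_pos h0, mul_comm r]
    rw [e1, e2]
    exact Real.exp_injective.eq_iff
  constructor
  · rintro ⟨ψ, h1, δ, hδ, h2⟩
    refine ⟨ψ, h1, δ, hδ, ?_⟩
    filter_upwards [h2, hall, hne0] with t a1 a2 a3 a4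
    exact (key t a2 a3 _).1 (a1 a4)
  · rintro ⟨ψ, h1, δ, hδ, h2⟩
    refine ⟨ψ, h1, δ, hδ, ?_⟩
    filter_upwards [h2, hall, hne0] with t a1 a2 a3 a4
    exact (key t a2 a3 _).2 (a1 a4)

theorem isContinuation_iff {L F : ℂ → ℂ} {z₀ : ℂ} :
    IsContinuation L z₀ F ↔ Pool.Agent.Q255.SG.ContAt L z₀ F := by
  constructor
  · rintro ⟨h1, h2⟩
    obtain ⟨δ, hδ, hb⟩ := Metric.eventually_nhds_iff.1 h2
    exact ⟨h1, δ, hδ, fun s hs hsd => hb (by rw [dist_eq_norm]; exact hsd) hs⟩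
  · rintro ⟨h1, δ, hδ, hb⟩
    refine ⟨h1, Metric.eventually_nhds_iff.2 ⟨δ, hδ, fun s hsd hs => hb s hs ?_⟩⟩
    rwa [dist_eq_norm] at hsd

theorem regN_iff {κ : Type} [Fintype κ] {m : κ → ℕ} {S : Finset ℕ} {A : ℕ → LGroup n}
    {ρ : ∀ i, Rep n (m i)} {w : κ → ℝ} {α : ∀ i, ℕ → Fin (m i) → ℂ}
    (hα : ∀ i, ∀ p : ℕ, p.Prime → ∀ z : ℂ, (if p ∈ S then 1 else factor (ρ i) (A p) z) =
        (∏ j, (1 - α i p j * z))⁻¹) {x : κ → ℝ} {t₀ r : ℝ} :
    Pool.Agent.Q255.SG.RegN (Pool.Agent.Q255.SG.Lz (fun i => 2 * w i) α) x t₀ r ↔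
    ∃ F : ℂ → ℂ, AnalyticAt ℂ F ((t₀ : ℂ) * Complex.I) ∧ F ((t₀ : ℂ) * Complex.I) ≠ 0 ∧
      ∀ᶠ z in 𝓝 ((t₀ : ℂ) * Complex.I), 0 < z.re →
        ∏ i, ‖LFunction S A (ρ i) (edgePoint (w i) 0 + z)‖ ^ x i =
          ‖z - (t₀ : ℂ) * Complex.I‖ ^ r * ‖F z‖ := by
  unfold Pool.Agent.Q255.SG.RegN
  simp only [Lz_eq hα]
  refine exists_congr fun F => and_congr_right fun _ => and_congr_right fun _ => ?_
  constructor
  · rintro ⟨δ, hδ, hb⟩
    refine Metric.eventually_nhds_iff.2 ⟨δ, hδ, fun s hsd hs => hb s hs ?_⟩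
    rwa [dist_eq_norm] at hsd
  · intro h2
    obtain ⟨δ, hδ, hb⟩ := Metric.eventually_nhds_iff.1 h2
    exact ⟨δ, hδ, fun s hs hsd => hb (by rw [dist_eq_norm]; exact hsd) hs⟩

theorem prodz_eq {κ : Type} [Fintype κ] {m : κ → ℕ} {S : Finset ℕ} {A : ℕ → LGroup n}
    {ρ : ∀ i, Rep n (m i)} {w : κ → ℝ} {α : ∀ i, ℕ → Fin (m i) → ℂ}
    (hα : ∀ i, ∀ p : ℕ, p.Prime → ∀ z : ℂ, (if p ∈ S then 1 else factor (ρ i) (A p) z) =
        (∏ j, (1 - α i p j * z))⁻¹) (x : κ → ℤ) :
    Pool.Agent.Q255.SG.prodz (fun i => 2 * w i) α x = product S A ρ w x := by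
  funext z
  unfold Pool.Agent.Q255.SG.prodz product
  exact Finset.prod_congr rfl fun i _ => by rw [Lz_eq hα]

theorem squareSum_eq {κ : Type} [Fintype κ] {m : κ → ℕ} {S : Finset ℕ} {A : ℕ → LGroup n}
    {ρ : ∀ i, Rep n (m i)} {w : κ → ℝ} {α : ∀ i, ℕ → Fin (m i) → ℂ}
    (hα2 : ∀ i, ∀ p : ℕ, p.Prime → p ∉ S → (mat (ρ i) (A p)).trace = ∑ j, α i p j)
    (hα3 : ∀ i, ∀ p ∈ S, ∑ j, α i p j = 0) (x : κ → ℝ) (h : ℝ) :
    squareSum S A ρ w x h =
      ∑' p : ℕ, ‖Pool.Agent.Q255.SG.cb (fun i => 2 * w i) α x p‖ ^ 2 *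
        (p : ℝ) ^ (-(1 + h)) := by
  unfold squareSum
  refine tsum_congr fun p => ?_
  unfold Pool.Agent.Q255.SG.cb
  by_cases hp : p.Prime
  · by_cases hS : p ∈ S
    · rw [if_neg fun h => h.2 hS, if_pos hp]
      have : ∑ i, (x i : ℂ) * ((∑ j, α i p j) * (((p : ℝ) ^ (-(2 * w i / 2)) : ℝ) : ℂ)) = 0 :=
        Finset.sum_eq_zero fun i _ => by rw [hα3 i p hS, zero_mul, mul_zero]
      rw [this]
      simp
    · rw [if_pos ⟨hp, hS⟩, if_pos hp]
      congr 3
      refine Finset.sum_congr rfl fun i _ => ?_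
      rw [hα2 i p hp hS, show 2 * w i / 2 = w i by ring, Complex.ofReal_mul]
      ring
  · rw [if_neg fun h => hp h.1, if_neg hp]
    simp

/-- **Zeros and poles on the edge of the `L`-functions of `GSp(2n)`.**  Let `A_p ∈ GSpin_{2n+1}(ℂ)`,
let `ρ_i` be finitely many finite dimensional representations of the `L`-group, and let the
eigenvalues of `ρ_i(A_p)` be at most `p^{w_i}` in absolute value for `p ∉ S`.  Then all the
`L_S(s, A, ρ_i)` have boundary functions `l_i` on the edges `Re s = w_i + 1`, and the following holds.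

1. For real exponents `x_i` the product of the `|l_i|^{x_i}` has the order `r` at `t₀` (it is
`|t - t₀|^r` times the exponential of a real analytic function of `t`) if and only if the product of
the `|L_S(w_i + 1 + z, A, ρ_i)|^{x_i}` is `|z - it₀|^r |F(z)|` for `z` near `it₀`, `Re z > 0`, with
`F` analytic at `it₀` and `F(it₀) ≠ 0`.
2. The order is a linear function on a linear space of exponents `x`, and it is unique.
3. Let the `x_i` be integers.  If `∏ L_S(w_i + 1 + z, A, ρ_i)^{x_i}` has a meromorphic continuation to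
a neighbourhood of `it₀`, then the product of the `|l_i|^{x_i}` has an order at `t₀`, and it is the
order of the continuation.  Conversely, if the product of the `|l_i|^{x_i}` has an integral order at
`t₀`, then there is a meromorphic continuation.
4. *(Bessel's inequality.)*  Let `t_j` be finitely many points at which the product of the
`|l_i|^{x_i}` has orders `r_j`.  Then
`(∑ r_j²) log(1/h) ≤ ∑_{p ∉ S} |∑ x_i tr ρ_i(A_p) p^{-w_i}|² p^{-1-h} + O(1)` for `0 < h ≤ 1`, and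
`∑ r_j² ≤ (∑ |x_i| dim ρ_i)²`.
5. If one of the `L`-functions `L_S(s, A, ρ_i)` has meromorphic continuations to neighbourhoods of the
different points `w_i + 1 + it_j`, with the orders `k_j`, then `∑ k_j² ≤ (dim ρ_i)²`. -/
theorem result (n : ℕ) (S : Finset ℕ) (A : ℕ → LGroup n) (κ : Type) [Fintype κ] (m : κ → ℕ)
    (ρ : ∀ i, Rep n (m i)) (w : κ → ℝ) (hw : ∀ i, Bounded S A (ρ i) (w i)) :
    (∀ i, ∃ l : ℝ → ℂ, IsBoundaryFunction S A (ρ i) (w i) l) ∧
    (∀ l : κ → ℝ → ℂ, (∀ i, IsBoundaryFunction S A (ρ i) (w i) (l i)) →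
      (∀ (x : κ → ℝ) (t₀ r : ℝ), HasOrder l x t₀ r ↔
        ∃ F : ℂ → ℂ, AnalyticAt ℂ F ((t₀ : ℂ) * Complex.I) ∧ F ((t₀ : ℂ) * Complex.I) ≠ 0 ∧
          ∀ᶠ z in 𝓝 ((t₀ : ℂ) * Complex.I), 0 < z.re →
            ∏ i, ‖LFunction S A (ρ i) (edgePoint (w i) 0 + z)‖ ^ x i =
              ‖z - (t₀ : ℂ) * Complex.I‖ ^ r * ‖F z‖) ∧
      (∀ (x y : κ → ℝ) (t₀ r s a b : ℝ), HasOrder l x t₀ r → HasOrder l y t₀ s →
        HasOrder l (fun i => a * x i + b * y i) t₀ (a * r + b * s)) ∧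
      (∀ (x : κ → ℝ) (t₀ r s : ℝ), HasOrder l x t₀ r → HasOrder l x t₀ s → r = s) ∧
      (∀ (x : κ → ℤ) (t₀ : ℝ) (F : ℂ → ℂ),
        IsContinuation (product S A ρ w x) ((t₀ : ℂ) * Complex.I) F →
        ∃ k : ℤ, meromorphicOrderAt F ((t₀ : ℂ) * Complex.I) = k ∧
          HasOrder l (fun i => (x i : ℝ)) t₀ k) ∧
      (∀ (x : κ → ℤ) (t₀ : ℝ) (k : ℤ), HasOrder l (fun i => (x i : ℝ)) t₀ k →
        ∃ F : ℂ → ℂ, IsContinuation (product S A ρ w x) ((t₀ : ℂ) * Complex.I) F ∧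
          meromorphicOrderAt F ((t₀ : ℂ) * Complex.I) = k) ∧
      (∀ (x : κ → ℝ) (τ : Type) [Fintype τ] (t r : τ → ℝ), Function.Injective t →
        (∀ j, HasOrder l x (t j) (r j)) →
        (∃ C : ℝ, ∀ h : ℝ, 0 < h → h ≤ 1 →
          (∑ j, r j ^ 2) * Real.log (1 / h) ≤ squareSum S A ρ w x h + C) ∧
        ∑ j, r j ^ 2 ≤ (∑ i, |x i| * m i) ^ 2)) ∧
    (∀ (i : κ) (τ : Type) [Fintype τ] (t : τ → ℝ) (F : τ → ℂ → ℂ) (k : τ → ℤ),
      Function.Injective t →
      (∀ j, IsContinuation (LFunction S A (ρ i)) (edgePoint (w i) (t j)) (F j) ∧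
        meromorphicOrderAt (F j) (edgePoint (w i) (t j)) = k j) →
      ∑ j, k j ^ 2 ≤ (m i : ℤ) ^ 2) := by
  choose α hα0 hα hα2 hα3 using fun i => exists_alpha (hw i)
  refine ⟨fun i => exists_boundary (hw i), fun l hl => ?_, fun i τ _ t F k ht hF => ?_⟩
  · have hl' : ∀ i, Pool.Agent.Q255.SG.Hl (2 * w i) (α i) 0 (l i) := fun i =>
      hl_of (hα0 i) (hα i) (hl i)
    have hor := hor_of hα hl
    have hne : ∀ i, ∃ T : Set ℝ, volume T = 0 ∧ ∀ t ∉ T, l i t ≠ 0 := by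
      intro i
      obtain ⟨T, hT, h⟩ := hl i
      exact ⟨T, null_of_dimH hT, fun t ht => (h t ht).1⟩
    have hiff : ∀ {x : κ → ℝ} {t₀ r : ℝ}, HasOrder l x t₀ r ↔
        Pool.Agent.Q255.SG.Reg l x t₀ r := hasOrder_iff hne
    have hreg : ∀ {x : κ → ℝ} {t₀ r : ℝ}, Pool.Agent.Q255.SG.Reg l x t₀ r ↔
        Pool.Agent.Q255.SG.RegN (Pool.Agent.Q255.SG.Lz (fun i => 2 * w i) α) x t₀ r :=
      Pool.Agent.Q255.SG.reg_iff hα0 hl' hor
    refine ⟨fun x t₀ r => ?_, fun x y t₀ r s a b h1 h2 => ?_, fun x t₀ r s h1 h2 => ?_,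
      fun x t₀ F hF => ?_, fun x t₀ k h => ?_, fun x τ _ t r ht h => ?_⟩
    · rw [hiff, hreg, regN_iff hα]
    · exact hiff.2 ((hiff.1 h1).lin (hiff.1 h2) a b)
    · exact (hiff.1 h1).unique (hiff.1 h2)
    · rw [isContinuation_iff, ← prodz_eq hα] at hF
      obtain ⟨k, hk, hR⟩ := Pool.Agent.Q255.SG.reg_of_cont hα0 hor hF
      exact ⟨k, hk, hiff.2 hR⟩
    · obtain ⟨F, h1, h2⟩ := Pool.Agent.Q255.SG.cont_of_reg hα0 hl' (hiff.1 h)
      refine ⟨F, ?_, h2⟩
      rw [isContinuation_iff, ← prodz_eq hα]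
      exact h1
    · obtain ⟨⟨C, hC⟩, h2⟩ := Pool.Agent.Q255.SG.bessel_reg hα0 ht r
        fun j => hreg.1 (hiff.1 (h j))
      refine ⟨⟨C, fun h h0 h1 => ?_⟩, h2⟩
      rw [squareSum_eq hα2 hα3]
      exact hC h h0 h1
  · have hN : ∀ j, Pool.Agent.Q255.SG.RegN
        (Pool.Agent.Q255.SG.Lz (fun _ : Unit => 2 * w i) fun _ => α i) (fun _ => 1) (t j)
        ((k j : ℤ) : ℝ) := by
      intro j
      obtain ⟨⟨hF1, hF2⟩, hk⟩ := hF j
      obtain ⟨g, hg1, hg2, hg3⟩ := (meromorphicOrderAt_eq_int_iff hF1).1 hk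
      have hsh : ∀ z : ℂ, edgePoint (w i) 0 + z - edgePoint (w i) (t j) =
          z - (t j : ℂ) * Complex.I := by
        intro z
        unfold edgePoint
        push_cast
        ring
      have hpt : edgePoint (w i) 0 + (t j : ℂ) * Complex.I = edgePoint (w i) (t j) := by
        unfold edgePoint
        push_cast
        ring
      have hct : Tendsto (fun z : ℂ => edgePoint (w i) 0 + z) (𝓝 ((t j : ℂ) * Complex.I))
          (𝓝 (edgePoint (w i) (t j))) := by
        have : Continuous fun z : ℂ => edgePoint (w i) 0 + z := by fun_prop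
        rw [← hpt]
        exact this.tendsto _
      have hev := hct.eventually (hF2.and (eventually_nhdsWithin_iff.1 hg3))
      obtain ⟨δ, hδ, hb⟩ := Metric.eventually_nhds_iff.1 hev
      refine ⟨fun z => g (edgePoint (w i) 0 + z), ?_, ?_, δ, hδ, fun z hz hzd => ?_⟩
      · have h1 : AnalyticAt ℂ (fun z : ℂ => edgePoint (w i) 0 + z) ((t j : ℂ) * Complex.I) :=
          analyticAt_const.add analyticAt_id
        exact AnalyticAt.comp' (by rw [hpt]; exact hg1) h1
      · show g (edgePoint (w i) 0 + (t j : ℂ) * Complex.I) ≠ 0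
        rw [hpt]
        exact hg2
      · obtain ⟨a1, a2⟩ := hb (y := z) (by rw [dist_eq_norm]; exact hzd)
        have e1 : (edgePoint (w i) (t j)).re < (edgePoint (w i) 0 + z).re := by
          rw [← hpt, Complex.add_re, Complex.add_re]
          simpa using hz
        have e2 : edgePoint (w i) 0 + z ≠ edgePoint (w i) (t j) := by
          intro h
          rw [h] at e1
          exact lt_irrefl _ e1
        have e3 : Pool.Agent.Q255.SG.Lz (fun _ : Unit => 2 * w i) (fun _ => α i) () z =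
            LFunction S A (ρ i) (edgePoint (w i) 0 + z) :=
          Lz_eq (κ := Unit) (m := fun _ => m i) (ρ := fun _ => ρ i) (w := fun _ => w i)
            (fun _ => hα i) () z
        rw [Finset.univ_unique, Finset.prod_singleton, Real.rpow_one]
        rw [show (default : Unit) = () from rfl, e3, a1 e1, a2 e2, smul_eq_mul, norm_mul, hsh,
          norm_zpow, Real.rpow_intCast]
    have h1 := (Pool.Agent.Q255.SG.bessel_reg (ι := Unit) (n := fun _ => m i)
      (ws := fun _ => 2 * w i) (αs := fun _ => α i) (fun _ => hα0 i) ht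
      (fun j => ((k j : ℤ) : ℝ)) hN).2
    simp only [Finset.univ_unique, Finset.sum_singleton, abs_one, one_mul] at h1
    exact_mod_cast h1

end Pool.Agent.Results.MP_eea520_nt.OrdersOnTheEdge
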