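import Pool.Agent.Q246.AT.Main
import Pool.Agent.Q246.AT.Kron

/-!
# Continuation and orders of the Artin twists of the `L`-functions of `GSp(2n)`

Let `π` be an automorphic representation of `GSp(2n)` over `ℚ` with Satake classes `A_p` in the
`L`-group, `ρ` a representation of the `L`-group, and let the eigenvalues of `ρ(A_p)` be at most `p^w`
in absolute value.  For Artin representations `τ` of `Gal(ℚ̄/ℚ)` we consider the `L`-functions
`L_S(s, π, ρ ⊗ τ)`.

If (a positive power of) `L_S(s, π, ρ ⊗ Ind ψ)` continues meromorphically to `Ω` for the linear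
characters `ψ` of the fields `F` which are totally complex, of degree divisible by a given number `N`,
and contained in a finite Galois extension `L/ℚ` such that `L/F` is cyclic, then a positive power of
`L_S(s, π, ρ ⊗ τ)` continues to `Ω` for ALL `τ` with vanishing character at the complex conjugations,
and a positive power of `L_S(s, π, ρ ⊗ τ₁) / L_S(s, π, ρ ⊗ τ₂)` continues for all `τ₁`, `τ₂` with equal
characters at the complex conjugations; these three statements are equivalent.  The continuation of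
`L_S(s, π, ρ)` itself is then equivalent to that of one (or all) of the twists with non-vanishing
character at the complex conjugations.  There is a similar law for the orders at the points `s₀` with
`Re s₀ > w`: the difference between the true and the expected order of `L_S(s, π, ρ ⊗ τ)` is proportional
to the trace of complex conjugation on `τ`.
-/

set_option autoImplicit false

namespace Pool.Agent.Results.MP_eea520_nt.SignatureOfTwists

open Filter NumberField Polynomial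
open scoped Classical ComplexConjugate Kronecker

/-! ## The L-group -/

section GSpin

variable {R M : Type} [CommRing R] [AddCommGroup M] [Module R M]

/-- The group of the products of an invertible scalar and of an element of the spin group of the
quadratic form `Q`, in the group of units of the Clifford algebra of `Q`. -/
def scalarTimesSpin (Q : QuadraticForm R M) : Subgroup (CliffordAlgebra Q)ˣ where
  carrier := {u | ∃ c : Rˣ, ∃ x ∈ spinGroup Q, (u : CliffordAlgebra Q) = (c : R) • x}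
  mul_mem' := by
    rintro u v ⟨c, x, hx, hu⟩ ⟨d, y, hy, hv⟩
    refine ⟨c * d, x * y, mul_mem hx hy, ?_⟩
    rw [Units.val_mul, hu, hv, smul_mul_smul_comm, Units.val_mul]
  one_mem' := ⟨1, 1, one_mem _, by simp⟩
  inv_mem' := by
    rintro u ⟨c, x, hx, hu⟩
    refine ⟨c⁻¹, star x, spinGroup.star_mem hx, ?_⟩
    have h1 : (u : CliffordAlgebra Q) * (((c⁻¹ : Rˣ) : R) • star x) = 1 := by
      rw [hu, smul_mul_smul_comm, spinGroup.mul_star_self_of_mem hx, ← Units.val_mul,
        mul_inv_cancel, Units.val_one, one_smul]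
    exact Units.inv_eq_of_mul_eq_one_right h1

/-- The group `GSpin(Q)` of the products of an invertible scalar and of an element of the spin group
of `Q`. -/
def GSpin (Q : QuadraticForm R M) : Type := scalarTimesSpin Q

instance (Q : QuadraticForm R M) : Group (GSpin Q) := (scalarTimesSpin Q).toGroup

end GSpin

/-- The quadratic form `x_0² + ... + x_{2n}²` in `2n + 1` complex variables. -/
noncomputable def form (n : ℕ) : QuadraticForm ℂ (Fin (2 * n + 1) → ℂ) :=
  QuadraticMap.weightedSumSquares ℂ fun _ : Fin (2 * n + 1) => (1 : ℂ)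

/-- The `L`-group `GSpin_{2n+1}(ℂ)` of `GSp_{2n}`: the group of the products of a scalar and of an
element of the spin group of the form `x_0² + ... + x_{2n}²`. -/
def LGroup (n : ℕ) : Type := GSpin (form n)

noncomputable instance (n : ℕ) : Group (LGroup n) := instGroupGSpin (form n)

/-- The representations of the `L`-group of dimension `m` (homomorphisms to `GL_m(ℂ)`). -/
def Rep (n m : ℕ) : Type := LGroup n →* GL (Fin m) ℂ

/-- The matrix of `A` in the representation `ρ`. -/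
noncomputable def mat {n m : ℕ} (ρ : Rep n m) (A : LGroup n) : Matrix (Fin m) (Fin m) ℂ :=
  ((DFunLike.coe (F := LGroup n →* GL (Fin m) ℂ) ρ A : GL (Fin m) ℂ) : Matrix (Fin m) (Fin m) ℂ)

/-- The eigenvalues of `ρ(A_p)` are at most `p^w` in absolute value for all primes `p ∉ S`. -/
def Bounded {n m : ℕ} (S : Finset ℕ) (A : ℕ → LGroup n) (ρ : Rep n m) (w : ℝ) : Prop :=
  ∀ p : ℕ, p.Prime → p ∉ S → ∀ z ∈ spectrum ℂ (mat ρ (A p)), ‖z‖ ≤ (p : ℝ) ^ w

/-! ## Artin representations -/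

/-- the absolute Galois group -/
abbrev Galois (K : Type) [Field K] : Type := Gal(AlgebraicClosure K/K)

/-- the intermediate fields of `K̄/K` -/
abbrev Sub (K : Type) [Field K] : Type := IntermediateField K (AlgebraicClosure K)

section
variable {K : Type} [Field K]

/-- `c` is a complex conjugation: `ι ∘ c = conj ∘ ι` for an embedding `ι` of `K̄` in `ℂ` -/
def IsConjugation (c : Galois K) : Prop :=
  ∃ ι : AlgebraicClosure K →+* ℂ, ∀ x, ι (c x) = conj (ι x)

/-- Artin representations: trivial on an open subgroup -/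
def IsArtin {d : ℕ} (τ : Galois K →* GL (Fin d) ℂ) : Prop :=
  ∃ E : Sub K, FiniteDimensional K E ∧ ∀ g ∈ E.fixingSubgroup, τ g = 1

/-- the character of `τ` -/
noncomputable def character {d : ℕ} (τ : Galois K →* GL (Fin d) ℂ) (g : Galois K) : ℂ :=
  (τ g : Matrix (Fin d) (Fin d) ℂ).trace

/-- the trace of the complex conjugations on `τ` is `t` -/
def ConjTrace {d : ℕ} (τ : Galois K →* GL (Fin d) ℂ) (t : ℤ) : Prop :=
  ∀ c : Galois K, IsConjugation c → character τ c = t

/-- the character of `Gal(K̄/K)` induced from the character `ψ` of `Gal(K̄/F)` -/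
noncomputable def induced (F : Sub K) (ψ : F.fixingSubgroup →* ℂˣ) (g : Galois K) : ℂ :=
  ∑ᶠ x : Galois K ⧸ F.fixingSubgroup,
    if h : x.out⁻¹ * g * x.out ∈ F.fixingSubgroup then ((ψ ⟨_, h⟩ : ℂˣ) : ℂ) else 0

/-- `F` is a finite totally complex extension of `K` of degree divisible by `N`; it is contained in a
finite Galois extension `L` of `K` such that `L/F` is cyclic and `ψ` is a character of `Gal(L/F)` -/
def Special (N : ℕ) (F : Sub K) (ψ : F.fixingSubgroup →* ℂˣ) : Prop :=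
  FiniteDimensional K F ∧ N ∣ Module.finrank K F ∧ IsEmpty (F →+* ℝ) ∧
    ∃ L : Sub K, FiniteDimensional K L ∧ Normal K L ∧ F ≤ L ∧
      (∃ σ ∈ F.fixingSubgroup, ∀ g ∈ F.fixingSubgroup, ∃ k : ℤ, ∀ x ∈ L, g x = (σ ^ k) x) ∧
      ∀ g : F.fixingSubgroup, (g : Galois K) ∈ L.fixingSubgroup → ψ g = 1

/-- `σ` is a Frobenius element at the prime number `p` (for `K = ℚ`): there is a maximal ideal `Q`
above `p` of the ring of all algebraic integers with `σ x ≡ x ^ p` modulo `Q` for all `x` -/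
def IsFrobenius [NumberField K] (p : ℕ) (σ : Galois K) : Prop :=
  ∃ Q : Ideal (𝓞 (AlgebraicClosure K)), Q.IsMaximal ∧ (p : 𝓞 (AlgebraicClosure K)) ∈ Q ∧
    ∀ x : 𝓞 (AlgebraicClosure K), σ • x - x ^ p ∈ Q

end

/-! ## The L-functions -/

section
variable {n m : ℕ}

/-- The factor `det(1 - z ρ(A) ⊗ T)⁻¹`. -/
noncomputable def factor (ρ : Rep n m) (A : LGroup n) {d : ℕ} (T : GL (Fin d) ℂ) (z : ℂ) : ℂ :=
  ((1 - z • (mat ρ A ⊗ₖ (T : Matrix (Fin d) (Fin d) ℂ))).det)⁻¹

/-- The `L`-function `L_S(s, π, ρ ⊗ τ) = ∏_{p ∉ S} det(1 - ρ(A_p) ⊗ τ(φ_p) p^{-s})⁻¹`, where the `A_p`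
are the Satake classes of `π` and `φ_p` is a Frobenius element at `p`. -/
noncomputable def LFunction (A : ℕ → LGroup n) (ρ : Rep n m) (φ : ℕ → Galois ℚ) {d : ℕ}
    (τ : Galois ℚ →* GL (Fin d) ℂ) (S : Finset ℕ) (s : ℂ) : ℂ :=
  ∏' p : Nat.Primes, if (p : ℕ) ∈ S then 1 else factor ρ (A p) (τ (φ p)) (((p : ℕ) : ℂ) ^ (-s))

/-- The `L`-function `L_S(s, π, ρ) = ∏_{p ∉ S} det(1 - ρ(A_p) p^{-s})⁻¹`. -/
noncomputable def standard (A : ℕ → LGroup n) (ρ : Rep n m) (S : Finset ℕ) (s : ℂ) : ℂ :=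
  ∏' p : Nat.Primes, if (p : ℕ) ∈ S then 1 else ((1 - ((p : ℕ) : ℂ) ^ (-s) • mat ρ (A p)).det)⁻¹

/-- A positive power of `L` has a meromorphic continuation from a right half-plane to `Ω`. -/
def Continues (Ω : Set ℂ) (L : ℂ → ℂ) : Prop :=
  ∃ k : ℕ, 0 < k ∧ ∃ F : ℂ → ℂ, MeromorphicOn F Ω ∧ ∃ c : ℝ, ∀ s : ℂ, c < s.re → F s = L s ^ k

/-- A positive power `L^k` of `L` has a meromorphic continuation from a right half-plane to `Ω`, with
the order `k r` at `s₀`. -/
def HasOrder (Ω : Set ℂ) (s₀ : ℂ) (L : ℂ → ℂ) (r : ℚ) : Prop :=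
  ∃ k : ℕ, 0 < k ∧ ∃ F : ℂ → ℂ, MeromorphicOn F Ω ∧
    (∃ c : ℝ, ∀ s : ℂ, c < s.re → F s = L s ^ k) ∧
    ∃ e : ℤ, meromorphicOrderAt F s₀ = e ∧ (e : ℚ) = k * r

/-- For the Artin representations `τ` induced from special characters and some finite `S' ⊇ S`
a positive power of `L_{S'}(s, π, ρ ⊗ τ)` continues to `Ω`. -/
def SpecialContinue (S : Finset ℕ) (A : ℕ → LGroup n) (ρ : Rep n m) (φ : ℕ → Galois ℚ) (N : ℕ)
    (Ω : Set ℂ) : Prop :=
  ∀ (F : Sub ℚ) (ψ : F.fixingSubgroup →* ℂˣ), Special N F ψ →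
    ∀ (d : ℕ) (τ : Galois ℚ →* GL (Fin d) ℂ), IsArtin τ → character τ = induced F ψ →
      ∃ S' : Finset ℕ, S ⊆ S' ∧ Continues Ω (LFunction A ρ φ τ S')

/-- A positive power of `L_{S'}(s, π, ρ ⊗ τ)` continues to `Ω` for all `τ` with character zero at the
complex conjugations, and all finite `S' ⊇ S`. -/
def BalancedContinue (S : Finset ℕ) (A : ℕ → LGroup n) (ρ : Rep n m) (φ : ℕ → Galois ℚ)
    (Ω : Set ℂ) : Prop :=
  ∀ (d : ℕ) (τ : Galois ℚ →* GL (Fin d) ℂ), IsArtin τ → ConjTrace τ 0 →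
    ∀ S' : Finset ℕ, S ⊆ S' → Continues Ω (LFunction A ρ φ τ S')

/-- A positive power of `L_{S₁}(s, π, ρ ⊗ τ₁) / L_{S₂}(s, π, ρ ⊗ τ₂)` continues to `Ω` for all `τ₁`, `τ₂`
whose characters are equal at the complex conjugations, and all finite `S₁`, `S₂ ⊇ S`. -/
def QuotientsContinue (S : Finset ℕ) (A : ℕ → LGroup n) (ρ : Rep n m) (φ : ℕ → Galois ℚ)
    (Ω : Set ℂ) : Prop :=
  ∀ (d₁ d₂ : ℕ) (τ₁ : Galois ℚ →* GL (Fin d₁) ℂ) (τ₂ : Galois ℚ →* GL (Fin d₂) ℂ), IsArtin τ₁ →
    IsArtin τ₂ → (∀ c : Galois ℚ, IsConjugation c → character τ₁ c = character τ₂ c) →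
    ∀ S₁ S₂ : Finset ℕ, S ⊆ S₁ → S ⊆ S₂ →
      Continues Ω fun s => LFunction A ρ φ τ₁ S₁ s / LFunction A ρ φ τ₂ S₂ s

/-- A positive power of `L_S(s, π, ρ)` continues to `Ω` if and only if this holds for
`L_{S'}(s, π, ρ ⊗ τ)` for one (and then for every) `τ` whose character is not zero at the complex
conjugations. -/
def AllOrNone (S : Finset ℕ) (A : ℕ → LGroup n) (ρ : Rep n m) (φ : ℕ → Galois ℚ)
    (Ω : Set ℂ) : Prop :=
  ∀ (d : ℕ) (τ : Galois ℚ →* GL (Fin d) ℂ) (t : ℤ), IsArtin τ → ConjTrace τ t → t ≠ 0 →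
    ∀ S' : Finset ℕ, S ⊆ S' →
      (Continues Ω (standard A ρ S) ↔ Continues Ω (LFunction A ρ φ τ S'))

/-- `μ` is additive on the characters of the Artin representations. -/
def Additive' (μ : (Galois ℚ → ℂ) → ℚ) : Prop :=
  ∀ (d₁ d₂ : ℕ) (τ₁ : Galois ℚ →* GL (Fin d₁) ℂ) (τ₂ : Galois ℚ →* GL (Fin d₂) ℂ), IsArtin τ₁ →
    IsArtin τ₂ → μ (character τ₁ + character τ₂) = μ (character τ₁) + μ (character τ₂)

/-- For the Artin representations `τ` induced from special characters and some finite `S' ⊇ S`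
the order of `L_{S'}(s, π, ρ ⊗ τ)` at `s₀` is `μ(τ)`. -/
def SpecialOrders (S : Finset ℕ) (A : ℕ → LGroup n) (ρ : Rep n m) (φ : ℕ → Galois ℚ) (N : ℕ)
    (Ω : Set ℂ) (s₀ : ℂ) (μ : (Galois ℚ → ℂ) → ℚ) : Prop :=
  ∀ (F : Sub ℚ) (ψ : F.fixingSubgroup →* ℂˣ), Special N F ψ →
    ∀ (d : ℕ) (τ : Galois ℚ →* GL (Fin d) ℂ), IsArtin τ → character τ = induced F ψ →
      ∃ S' : Finset ℕ, S ⊆ S' ∧ HasOrder Ω s₀ (LFunction A ρ φ τ S') (μ (character τ))

/-- The law of the orders: if `L_S(s, π, ρ)` has the order `μ(1) + δ` at `s₀`, then all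
`L_{S'}(s, π, ρ ⊗ τ)` have the order `μ(τ) + t δ`, where `t` is the trace of complex conjugation;
if one `L_{S'}(s, π, ρ ⊗ τ)` with `t ≠ 0` has the order `μ(τ) + t δ`, then `L_S(s, π, ρ)` has the order
`μ(1) + δ`; if `t = 0`, then the order is `μ(τ)` in all cases. -/
def OrderLaw (S : Finset ℕ) (A : ℕ → LGroup n) (ρ : Rep n m) (φ : ℕ → Galois ℚ)
    (Ω : Set ℂ) (s₀ : ℂ) (μ : (Galois ℚ → ℂ) → ℚ) : Prop :=
  ∀ (d : ℕ) (τ : Galois ℚ →* GL (Fin d) ℂ) (t : ℤ), IsArtin τ → ConjTrace τ t →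
    ∀ S' : Finset ℕ, S ⊆ S' → ∀ δ : ℚ,
      (HasOrder Ω s₀ (standard A ρ S) (μ 1 + δ) →
        HasOrder Ω s₀ (LFunction A ρ φ τ S') (μ (character τ) + t * δ)) ∧
      (t ≠ 0 → HasOrder Ω s₀ (LFunction A ρ φ τ S') (μ (character τ) + t * δ) →
        HasOrder Ω s₀ (standard A ρ S) (μ 1 + δ)) ∧
      (t = 0 → HasOrder Ω s₀ (LFunction A ρ φ τ S') (μ (character τ)))

end

/-! ## Proofs -/

section
variable {n m : ℕ}

open Pool.Agent.Q246.AT (R ev_iff Has PC PO famPC famPO Norms Bad IsTw Good Eig LL LF Addi)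
open Pool.Agent.Q246.BI (IsGalChar GenV)

theorem exists_roots (M : Matrix (Fin m) (Fin m) ℂ) : ∃ α : Fin m → ℂ,
    (∀ j, α j ∈ spectrum ℂ M) ∧ (∀ z : ℂ, (1 - z • M).det = ∏ j, (1 - α j * z)) := by
  have hs : M.charpoly.Splits := IsAlgClosed.splits _
  have hc : M.charpoly.roots.card = m := by
    rw [← hs.natDegree_eq_card_roots, Matrix.charpoly_natDegree_eq_dim, Fintype.card_fin]
  obtain ⟨l, hl⟩ : ∃ l : List ℂ, (l : Multiset ℂ) = M.charpoly.roots :=
    ⟨M.charpoly.roots.toList, Multiset.coe_toList _⟩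
  have hlm : l.length = m := by
    rw [← Multiset.coe_card, hl, hc]
  subst hlm
  refine ⟨fun j => l.get j, fun j => ?_, fun z => ?_⟩
  · rw [Matrix.mem_spectrum_iff_isRoot_charpoly]
    have h1 : l.get j ∈ M.charpoly.roots := by
      rw [← hl]
      exact List.get_mem l j
    exact (Polynomial.mem_roots'.1 h1).2
  · have hp : M.charpoly = (M.charpoly.roots.map fun a => Polynomial.X - Polynomial.C a).prod :=
      hs.eq_prod_roots_of_monic (Matrix.charpoly_monic M)
    have h2 : ∀ x : ℂ, M.charpoly.eval x = ∏ j, (x - l.get j) := by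
      intro x
      rw [hp, ← hl, Multiset.map_coe, Multiset.prod_coe, Polynomial.eval_list_prod, List.map_map]
      have : (List.map ((Polynomial.eval x) ∘ fun a => Polynomial.X - Polynomial.C a) l) =
          List.map (fun a => x - a) l := by
        refine List.map_congr_left fun a _ => ?_
        simp
      rw [this, ← List.prod_ofFn]
      congr 1
      exact (List.ofFn_getElem_eq_map l (fun a => x - a)).symm
    rcases eq_or_ne z 0 with hz | hz
    · subst hz
      simp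
    · have h3 : (1 - z • M) = z • (Matrix.scalar (Fin l.length) z⁻¹ - M) := by
        have e1 : (Matrix.scalar (Fin l.length) z⁻¹ : Matrix (Fin l.length) (Fin l.length) ℂ) =
            z⁻¹ • 1 := by
          rw [Matrix.scalar_apply, Matrix.smul_one_eq_diagonal]
        rw [e1, smul_sub, smul_smul, mul_inv_cancel₀ hz, one_smul]
      rw [h3, Matrix.det_smul, Fintype.card_fin, ← Matrix.eval_charpoly, h2, ← Fin.prod_const,
        ← Finset.prod_mul_distrib]
      refine Finset.prod_congr rfl fun j _ => ?_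
      field_simp

/-- the prime numbers have norms -/
theorem norms : Norms (fun p : Nat.Primes => (p : ℕ)) := by
  refine ⟨fun p => p.2.two_le, fun σ hσ => ?_⟩
  rw [Nat.Primes.summable_rpow]
  linarith

theorem isGalChar {d : ℕ} {τ : Galois ℚ →* GL (Fin d) ℂ} (h : IsArtin τ) :
    IsGalChar (character τ) := ⟨d, τ, h, fun _ => rfl⟩

theorem exists_artin {χ : Galois ℚ → ℂ} (h : IsGalChar χ) :
    ∃ (d : ℕ) (τ : Galois ℚ →* GL (Fin d) ℂ), IsArtin τ ∧ character τ = χ := by
  obtain ⟨d, τ, h1, h2⟩ := h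
  exact ⟨d, τ, h1, funext fun g => (h2 g).symm⟩

theorem finite_order {d : ℕ} {τ : Galois ℚ →* GL (Fin d) ℂ} (h : IsArtin τ) (g : Galois ℚ) :
    ∃ k : ℕ, 0 < k ∧ (τ g : Matrix (Fin d) (Fin d) ℂ) ^ k = 1 := by
  obtain ⟨E, hE, h⟩ := h
  have h1 := Pool.Agent.Q246.BI.fin_index E
  obtain ⟨k, hk, -, hk1⟩ := Subgroup.exists_pow_mem_of_index_ne_zero h1.index_ne_zero g
  refine ⟨k, hk, ?_⟩
  have h2 : τ g ^ k = 1 := by rw [← map_pow]; exact h _ hk1
  rw [← Units.val_pow_eq_pow_val, h2, Units.val_one]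

/-- every Artin representation over `ℚ` has a trace of complex conjugation -/
theorem exists_conjTrace {d : ℕ} {τ : Galois ℚ →* GL (Fin d) ℂ} (h : IsArtin τ) :
    ∃ t : ℤ, ConjTrace τ t := by
  by_cases hex : ∃ c : Galois ℚ, IsConjugation c
  · obtain ⟨c₀, hc₀⟩ := hex
    obtain ⟨d', ρ, -, h2⟩ := Pool.Agent.Q246.DL.artin_of_isGalChar (isGalChar h)
    obtain ⟨p, q, -, h1⟩ := Pool.Agent.Q246.DL.signature (ρ := ρ) hc₀
    refine ⟨p - q, fun c hc => ?_⟩
    obtain ⟨g, rfl⟩ := Pool.Agent.Q246.DL.cc_conj hc₀ hc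
    rw [← h2, ρ.char_conj c₀ g, h1]
    push_cast
    rfl
  · push Not at hex
    exact ⟨0, fun c hc => absurd hc (hex c)⟩

/-- the data of the machine -/
theorem exists_data (A : ℕ → LGroup n) (ρ : Rep n m) (φ : ℕ → Galois ℚ) {S : Finset ℕ} {w : ℝ}
    (hA : Bounded S A ρ w) : ∃ α : Nat.Primes → Fin m → ℂ,
      Bad (fun p : Nat.Primes => (p : ℕ)) α w {p | (p : ℕ) ∈ S} ∧
      (∀ (p : Nat.Primes) (z : ℂ), (1 - z • mat ρ (A p)).det = ∏ i, (1 - α p i * z)) ∧
      ∀ (d : ℕ) (τ : Galois ℚ →* GL (Fin d) ℂ), IsArtin τ → ∀ S' : Finset ℕ, S ⊆ S' →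
        ∃ B : Nat.Primes → ℂ[X], IsTw α (fun p : Nat.Primes => φ p) (character τ) B ∧
          LF (fun p : Nat.Primes => (p : ℕ)) B = LFunction A ρ φ τ S' ∧
          ∀ s : ℂ, w < s.re → ∀ p : Nat.Primes, (B p).eval (((p : ℕ) : ℂ) ^ (-s)) ≠ 0 := by
  choose α h1 h2 using fun p : Nat.Primes => exists_roots (mat ρ (A p))
  have hbad : Bad (fun p : Nat.Primes => (p : ℕ)) α w {p | (p : ℕ) ∈ S} := by
    refine ⟨?_, fun p hp i => hA p p.2 hp _ (h1 p i)⟩
    exact Set.Finite.preimage (Subtype.val_injective.injOn) S.finite_toSet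
  refine ⟨α, hbad, h2, fun d τ hτ S' hS' => ?_⟩
  have h3 : ∀ p : Nat.Primes, ∃ l : Fin d → ℂ, Eig (character τ) (φ p) l ∧
      ∀ z : ℂ, (1 - z • (mat ρ (A p) ⊗ₖ (τ (φ p) : Matrix (Fin d) (Fin d) ℂ))).det =
        ∏ i, ∏ j, (1 - α p i * z * l j) := by
    intro p
    obtain ⟨k, hk, hk1⟩ := finite_order hτ (φ p)
    obtain ⟨l, e1, e2, e3⟩ := Pool.Agent.Q246.AT.eig_mat _ hk hk1
    refine ⟨l, ⟨e1, fun k => ?_⟩, fun z => ?_⟩
    · unfold character
      rw [map_pow, Units.val_pow_eq_pow_val, e3]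
    · rw [Pool.Agent.Q246.AT.det_kron _ _ (α p) (h2 p)]
      refine Finset.prod_congr rfl fun i _ => ?_
      rw [e2]
      refine Finset.prod_congr rfl fun j _ => ?_
      ring
  choose l hl hl' using h3
  let B : Nat.Primes → ℂ[X] := fun p => if (p : ℕ) ∈ S' then 1 else
    ∏ i, ∏ j, (1 - C (α p i * l p j) * X)
  have hB : ∀ p : Nat.Primes, (p : ℕ) ∉ S' → ∀ z : ℂ,
      (B p).eval z = ∏ i, ∏ j, (1 - α p i * z * l p j) := by
    intro p hp z
    simp only [B, if_neg hp, Polynomial.eval_prod, Polynomial.eval_sub, Polynomial.eval_one,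
      Polynomial.eval_mul, Polynomial.eval_C, Polynomial.eval_X]
    refine Finset.prod_congr rfl fun i _ => Finset.prod_congr rfl fun j _ => ?_
    ring
  have hB' : ∀ p : Nat.Primes, (p : ℕ) ∈ S' → B p = 1 := fun p hp => if_pos hp
  refine ⟨B, ⟨?_, fun p => ?_⟩, ?_, fun s hs p => ?_⟩
  · have hfin : {p : Nat.Primes | (p : ℕ) ∈ S'}.Finite :=
      Set.Finite.preimage (Subtype.val_injective.injOn) S'.finite_toSet
    filter_upwards [hfin.eventually_cofinite_notMem] with p hp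
    exact ⟨d, l p, hl p, hB p hp⟩
  · by_cases hp : (p : ℕ) ∈ S'
    · rw [hB' p hp, Polynomial.eval_one]
      exact one_ne_zero
    · rw [hB p hp]
      simp
  · funext s
    refine tprod_congr fun p => ?_
    by_cases hp : (p : ℕ) ∈ S'
    · rw [if_pos hp, hB' p hp, Polynomial.eval_one, inv_one]
    · rw [if_neg hp, hB p hp]
      unfold factor
      rw [hl' p]
  · by_cases hp : (p : ℕ) ∈ S'
    · rw [hB' p hp, Polynomial.eval_one]
      exact one_ne_zero
    · rw [hB p hp]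
      refine Finset.prod_ne_zero_iff.2 fun i _ => Finset.prod_ne_zero_iff.2 fun j _ h0 => ?_
      have h4 : ‖α p i * ((p : ℕ) : ℂ) ^ (-s) * l p j‖ = 1 := by
        rw [sub_eq_zero] at h0
        rw [← h0, norm_one]
      rw [norm_mul, (hl p).1, mul_one] at h4
      have h5 := Pool.Agent.Q246.AT.xx_le norms hbad (v := p) (fun h => hp (hS' h)) i s
      have h6 : ((p : ℕ) : ℝ) ^ (-(s.re - w)) < 1 := by
        apply Real.rpow_lt_one_of_one_lt_of_neg
        · exact_mod_cast p.2.one_lt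
        · linarith
      rw [h4] at h5
      linarith

theorem continues_iff (Ω : Set ℂ) (L : ℂ → ℂ) : Continues Ω L ↔ Has (PC Ω) L 0 := by
  constructor
  · rintro ⟨k, hk, F, h1, h2⟩
    exact ⟨k, hk, F, 0, h1, by simp, ev_iff.2 h2⟩
  · rintro ⟨k, hk, F, e, h1, -, h2⟩
    exact ⟨k, hk, F, h1, ev_iff.1 h2⟩

theorem hasOrder_iff {Ω : Set ℂ} {s₀ : ℂ} (hs₀ : s₀ ∈ Ω) (L : ℂ → ℂ) (r : ℚ) :
    HasOrder Ω s₀ L r ↔ Has (PO Ω s₀) L r := by
  constructor
  · rintro ⟨k, hk, F, h1, h2, e, h3, h4⟩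
    exact ⟨k, hk, F, e, ⟨h1, h1 s₀ hs₀, h3⟩, h4, ev_iff.2 h2⟩
  · rintro ⟨k, hk, F, e, ⟨h1, -, h3⟩, h4, h2⟩
    exact ⟨k, hk, F, h1, ev_iff.1 h2, e, h3, h4⟩

theorem standard_eq (A : ℕ → LGroup n) (ρ : Rep n m) (φ : ℕ → Galois ℚ) (S : Finset ℕ) :
    standard A ρ S = LFunction A ρ φ (1 : Galois ℚ →* GL (Fin 1) ℂ) S := by
  funext s
  refine tprod_congr fun p => ?_
  split_ifs with hp
  · rfl
  · unfold factor
    obtain ⟨α, -, h2⟩ := exists_roots (mat ρ (A p))
    rw [Pool.Agent.Q246.AT.det_kron _ _ α h2, h2]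
    congr 1
    refine Finset.prod_congr rfl fun i _ => ?_
    simp [mul_comm]

theorem artin_one : IsArtin (1 : Galois ℚ →* GL (Fin 1) ℂ) :=
  ⟨⊥, inferInstance, fun _ _ => rfl⟩

theorem char_one : character (1 : Galois ℚ →* GL (Fin 1) ℂ) = 1 := by
  funext g
  simp [character]

theorem toIsCC {c : Galois ℚ} (h : IsConjugation c) : Pool.Agent.Q246.RP.IsCC c := h

/-- the special characters in the sense of the machine -/
theorem special_of_gen {N : ℕ} {f : Galois ℚ → ℂ} (hf : f ∈ GenV ℚ N) :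
    ∃ (F : Sub ℚ) (ψ : F.fixingSubgroup →* ℂˣ), Special N F ψ ∧ f = induced F ψ := by
  obtain ⟨F, ψ, h1, h2, h3, h4, rfl⟩ := hf
  exact ⟨F, ψ, ⟨h1, h4, h3, h2⟩, rfl⟩

/-- **Theorem.** Let `ρ` be a representation of the `L`-group of `GSp_{2n}`, `A_p` elements of the
`L`-group (the Satake classes of `π`) such that the eigenvalues of `ρ(A_p)` are at most `p^w` for the
primes `p ∉ S`, and let `φ_p` be Frobenius elements.  Let `N > 0` and `Ω ⊆ ℂ`.

(1) The following are equivalent: a positive power of `L_{S'}(s, π, ρ ⊗ τ)` continues meromorphically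
to `Ω` for the `τ` induced from special characters and some finite `S' ⊇ S`; the same for all Artin
representations `τ` with character zero at the complex conjugations and all finite `S' ⊇ S`; a positive
power of `L_{S₁}(s, π, ρ ⊗ τ₁) / L_{S₂}(s, π, ρ ⊗ τ₂)` continues to `Ω` for all `τ₁`, `τ₂` with equal
characters at the complex conjugations and all finite `S₁`, `S₂ ⊇ S`.
(2) In this case a positive power of `L_S(s, π, ρ)` continues to `Ω` if and only if this holds for one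
(and then for every) `L_{S'}(s, π, ρ ⊗ τ)` such that the character of `τ` is not zero at the complex
conjugations.
(3) Let `s₀ ∈ Ω` and `Re s₀ > w`, and let `μ` be an additive function of the Artin representations.
Assume that the order of `L_{S'}(s, π, ρ ⊗ τ)` at `s₀` is `μ(τ)` for the `τ` induced from special
characters.  Then `OrderLaw` holds: the order of `L_{S'}(s, π, ρ ⊗ τ)` is `μ(τ) + t δ`, where `t` is the
trace of complex conjugation on `τ` and `δ` is the difference of the order of `L_S(s, π, ρ)` and of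
`μ(1)`.
(4) The orders are unique if `Ω` is connected and contains a half-plane; every `τ` has a trace of
complex conjugation. -/
theorem result :
    (∀ (n m : ℕ) (ρ : Rep n m) (S : Finset ℕ) (A : ℕ → LGroup n) (w : ℝ), Bounded S A ρ w →
      ∀ φ : ℕ → Galois ℚ, (∀ p : ℕ, p.Prime → IsFrobenius p (φ p)) →
      ∀ N : ℕ, 0 < N → ∀ Ω : Set ℂ,
        [SpecialContinue S A ρ φ N Ω, BalancedContinue S A ρ φ Ω,
          QuotientsContinue S A ρ φ Ω].TFAE ∧
        (SpecialContinue S A ρ φ N Ω → AllOrNone S A ρ φ Ω) ∧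
        ∀ s₀ ∈ Ω, w < s₀.re → ∀ μ : (Galois ℚ → ℂ) → ℚ, Additive' μ →
          SpecialOrders S A ρ φ N Ω s₀ μ → OrderLaw S A ρ φ Ω s₀ μ) ∧
    (∀ (Ω : Set ℂ) (c : ℝ) (s₀ : ℂ), IsPreconnected Ω → {s : ℂ | c < s.re} ⊆ Ω → s₀ ∈ Ω →
      ∀ (L : ℂ → ℂ) (r r' : ℚ), HasOrder Ω s₀ L r → HasOrder Ω s₀ L r' → r = r') ∧
    (∀ (d : ℕ) (τ : Galois ℚ →* GL (Fin d) ℂ), IsArtin τ → ∃ t : ℤ, ConjTrace τ t) := by
  refine ⟨?_, ?_, fun d τ hτ => exists_conjTrace hτ⟩
  · intro n m ρ S A w hA φ _ N hN Ω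
    obtain ⟨α, hbad, -, hdata⟩ := exists_data A ρ φ hA
    -- the special characters
    have hspec : SpecialContinue S A ρ φ N Ω → ∀ f ∈ GenV ℚ N, IsGalChar f →
        Has (PC Ω) (fun s => (LL (fun p : Nat.Primes => (p : ℕ)) α (fun p : Nat.Primes => φ p)
          {p | (p : ℕ) ∈ S} f s : ℂ)) ((fun _ : Galois ℚ → ℂ => (0 : ℚ)) f) := by
      intro h f hf hfc
      obtain ⟨F, ψ, hF, hfF⟩ := special_of_gen hf
      obtain ⟨d, τ, hτ, hτf⟩ := exists_artin hfc
      obtain ⟨S', hS', h1⟩ := h F ψ hF d τ hτ (hτf.trans hfF)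
      obtain ⟨B, hB, hLF, -⟩ := hdata d τ hτ S' hS'
      rw [continues_iff, ← hLF,
        Pool.Agent.Q246.AT.has_LF_PC norms hbad (isGalChar hτ) hB, hτf] at h1
      exact h1
    have hμ0 : Addi (K := ℚ) (fun _ => (0 : ℚ)) := fun _ _ _ _ => (add_zero 0).symm
    refine ⟨?_, ?_, ?_⟩
    · tfae_have 1 → 3 := by
        intro h d₁ d₂ τ₁ τ₂ h₁ h₂ heq S₁ S₂ hS₁ hS₂
        obtain ⟨B₁, hB₁, e₁, -⟩ := hdata d₁ τ₁ h₁ S₁ hS₁
        obtain ⟨B₂, hB₂, e₂, -⟩ := hdata d₂ τ₂ h₂ S₂ hS₂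
        have h3 := Pool.Agent.Q246.AT.law_quot (famPC Ω) norms hbad hμ0 hN (hspec h)
          (isGalChar h₁) (isGalChar h₂) (fun c hc => heq c hc)
        obtain ⟨u₁, a₁, b₁, -⟩ := Pool.Agent.Q246.AT.LF_eq norms hbad (isGalChar h₁) hB₁
        obtain ⟨u₂, a₂, b₂, -⟩ := Pool.Agent.Q246.AT.LF_eq norms hbad (isGalChar h₂) hB₂
        rw [sub_zero] at h3
        rw [continues_iff]
        have hu : PC Ω (u₁ * u₂⁻¹) 0 := fun x _ => (a₁ x).mul (a₂ x).inv
        refine (Pool.Agent.Q246.AT.has_mul_iff (famPC Ω) hu ?_ 0).2 h3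
        filter_upwards [b₁, b₂] with s g₁ g₂
        rw [← e₁, ← e₂, g₁.2, g₂.2, Pi.mul_apply, Pi.inv_apply]
        refine ⟨mul_ne_zero g₁.1 (inv_ne_zero g₂.1), ?_⟩
        rw [mul_div_mul_comm, div_eq_mul_inv (u₁ s)]
      tfae_have 3 → 2 := by
        intro h d τ hτ h0 S' hS'
        have hz : IsArtin (1 : Galois ℚ →* GL (Fin 0) ℂ) := ⟨⊥, inferInstance, fun _ _ => rfl⟩
        have h1 := h d 0 τ 1 hτ hz (fun c hc => by
          rw [h0 c hc]
          simp [character]) S' S hS' subset_rfl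
        have h2 : ∀ s, LFunction A ρ φ (1 : Galois ℚ →* GL (Fin 0) ℂ) S s = 1 := by
          intro s
          unfold LFunction
          have h3 : ∀ p : Nat.Primes, (if (p : ℕ) ∈ S then (1 : ℂ) else
              factor ρ (A p) ((1 : Galois ℚ →* GL (Fin 0) ℂ) (φ p)) (((p : ℕ) : ℂ) ^ (-s))) = 1 := by
            intro p
            split_ifs
            · rfl
            · unfold factor
              rw [Matrix.det_isEmpty, inv_one]
          rw [tprod_congr h3, tprod_one]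
        simp only [h2, div_one] at h1
        exact h1
      tfae_have 2 → 1 := by
        intro h F ψ hF d τ hτ hτf
        refine ⟨S, subset_rfl, h d τ hτ (fun c hc => ?_) S subset_rfl⟩
        rw [hτf, Int.cast_zero]
        exact Pool.Agent.Q246.AT.indGal_cc hF.2.2.1 (fun g => ((ψ g : ℂˣ) : ℂ)) (toIsCC hc)
      tfae_finish
    · intro h d τ t hτ ht hne S' hS'
      obtain ⟨B, hB, e, -⟩ := hdata d τ hτ S' hS'
      obtain ⟨B₀, hB₀, e₀, -⟩ := hdata 1 1 artin_one S subset_rfl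
      have k₁ : ∀ c, Pool.Agent.Q246.RP.IsCC c → character τ c = t := fun c hc => ht c hc
      have k₂ : ∀ c, Pool.Agent.Q246.RP.IsCC c →
          character (1 : Galois ℚ →* GL (Fin 1) ℂ) c = (1 : ℤ) := fun c _ => by
        rw [char_one, Pi.one_apply, Int.cast_one]
      rw [continues_iff, continues_iff, standard_eq A ρ φ S, ← e, ← e₀,
        Pool.Agent.Q246.AT.has_LF_PC norms hbad (isGalChar hτ) hB,
        Pool.Agent.Q246.AT.has_LF_PC norms hbad (isGalChar artin_one) hB₀]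
      constructor
      · intro h1
        have := Pool.Agent.Q246.AT.law_has (famPC Ω) norms hbad hμ0 hN (hspec h)
          (isGalChar hτ) (isGalChar artin_one) k₁ k₂ one_ne_zero h1
        simpa using this
      · intro h1
        have := Pool.Agent.Q246.AT.law_has (famPC Ω) norms hbad hμ0 hN (hspec h)
          (isGalChar artin_one) (isGalChar hτ) k₂ k₁ hne h1
        simpa using this
    · intro s₀ hs₀ hws μ hμ h d τ t hτ ht S' hS' δ
      obtain ⟨B, hB, e, hne⟩ := hdata d τ hτ S' hS'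
      obtain ⟨B₀, hB₀, e₀, hne₀⟩ := hdata 1 1 artin_one S subset_rfl
      have hμ' : Addi (K := ℚ) μ := by
        intro χ χ' hχ hχ'
        obtain ⟨d₁, τ₁, h₁, rfl⟩ := exists_artin hχ
        obtain ⟨d₂, τ₂, h₂, rfl⟩ := exists_artin hχ'
        exact hμ d₁ d₂ τ₁ τ₂ h₁ h₂
      have hsp : ∀ f ∈ GenV ℚ N, IsGalChar f →
          Has (PO Ω s₀) (fun s => (LL (fun p : Nat.Primes => (p : ℕ)) α
            (fun p : Nat.Primes => φ p) {p | (p : ℕ) ∈ S} f s : ℂ)) (μ f) := by
        intro f hf hfc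
        obtain ⟨F, ψ, hF, hfF⟩ := special_of_gen hf
        obtain ⟨d', τ', hτ', hτf⟩ := exists_artin hfc
        obtain ⟨S'', hS'', h1⟩ := h F ψ hF d' τ' hτ' (hτf.trans hfF)
        obtain ⟨B', hB', hLF, hne'⟩ := hdata d' τ' hτ' S'' hS''
        rw [hasOrder_iff hs₀, ← hLF, Pool.Agent.Q246.AT.has_LF_PO norms hbad (isGalChar hτ') hB'
          Ω hws (hne' s₀ hws), hτf] at h1
        exact h1
      have k₁ : ∀ c, Pool.Agent.Q246.RP.IsCC c → character τ c = t := fun c hc => ht c hc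
      have k₂ : ∀ c, Pool.Agent.Q246.RP.IsCC c →
          character (1 : Galois ℚ →* GL (Fin 1) ℂ) c = (1 : ℤ) := fun c _ => by
        rw [char_one, Pi.one_apply, Int.cast_one]
      rw [hasOrder_iff hs₀, hasOrder_iff hs₀, hasOrder_iff hs₀, standard_eq A ρ φ S, ← e, ← e₀,
        Pool.Agent.Q246.AT.has_LF_PO norms hbad (isGalChar hτ) hB Ω hws (hne s₀ hws),
        Pool.Agent.Q246.AT.has_LF_PO norms hbad (isGalChar hτ) hB Ω hws (hne s₀ hws),
        Pool.Agent.Q246.AT.has_LF_PO norms hbad (isGalChar artin_one) hB₀ Ω hws (hne₀ s₀ hws),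
        char_one]
      refine ⟨fun h1 => ?_, fun htn h1 => ?_, fun ht0 => ?_⟩
      · have h2 := Pool.Agent.Q246.AT.law_has (famPO Ω s₀) norms hbad hμ' hN hsp
          (isGalChar hτ) (char_one ▸ isGalChar artin_one) k₁ (char_one ▸ k₂) one_ne_zero h1
        have h3 : (μ (character τ) + (t : ℚ) / ((1 : ℤ) : ℚ) * (μ 1 + δ - μ 1)) =
            μ (character τ) + t * δ := by
          push_cast
          ring
        rw [h3] at h2
        exact h2
      · have h2 := Pool.Agent.Q246.AT.law_has (famPO Ω s₀) norms hbad hμ' hN hsp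
          (char_one ▸ isGalChar artin_one) (isGalChar hτ) (char_one ▸ k₂) k₁ htn h1
        have h3 : (μ 1 + ((1 : ℤ) : ℚ) / (t : ℚ) * (μ (character τ) + t * δ - μ (character τ))) =
            μ 1 + δ := by
          have : (t : ℚ) ≠ 0 := by exact_mod_cast htn
          push_cast
          field_simp
          ring
        rw [h3] at h2
        exact h2
      · subst ht0
        refine Pool.Agent.Q246.AT.law_balanced (famPO Ω s₀) norms hbad hμ' hN hsp
          (isGalChar hτ) (fun c hc => ?_)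
        rw [k₁ c hc, Int.cast_zero]
  · intro Ω c s₀ hΩ hc hs₀ L r r' h h'
    rw [hasOrder_iff hs₀] at h h'
    exact Has.unique hΩ hs₀ hc h h'

end

end Pool.Agent.Results.MP_eea520_nt.SignatureOfTwists
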